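import Pool.Agent.TH681.Ex.Hard
import Pool.Agent.H620R2.Gauge2.Defs

/-! The hard language is in `NP`. -/

set_option autoImplicit false

namespace Pool.Agent.TH681.Qa

open Pool.Agent.NPC Pool.Agent.H620R2.Gauge Finset Pool.Agent.H622R2 Pool.Agent.TH681.Adv
  Pool.Agent.TH681.Ex

/-- the test of the answers, with the length -/
def HH2 (k : ℕ) (F : List (List Bool)) (q : List Bool × List Bool) : Bool :=
  decide ((unpair q.1).1.length = (unpair q.1).2.length * (unpair q.1).2.length) && HH k F q

theorem poly_HH2 (k : ℕ) (F : List (List Bool)) : Poly (HH2 k F) := by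
  have h1 : Poly (fun q : List Bool × List Bool => (unpair q.1).1) :=
    Poly.fst (poly_unpair.comp (Poly.fst Poly.id))
  have h2 : Poly (fun q : List Bool × List Bool => (unpair q.1).2) :=
    Poly.snd (poly_unpair.comp (Poly.fst Poly.id))
  unfold HH2
  refine Poly.and ?_ (poly_HH k F)
  exact Poly.dec_eq (Poly.length h1) (Poly.mul (Poly.length h2) (Poly.length h2))

theorem HL_NP (A : Oracle) (k : ℕ) (F : Finset (List Bool)) :
    IsNP A (HL A k F (fun n => n ^ 2)) := by
  have hH : Poly (fun q : List Bool × List Bool => [HH2 k F.toList q]) :=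
    Poly.cons (poly_HH2 k F.toList) (NPC.Poly.const [])
  refine ⟨_, Polynomial.X ^ 2, IsFP.tt (poly_QH k) hH, fun x => ?_⟩
  have hans : ∀ w : List Bool, ∀ i < w.length + k,
      ((QH k (pairBits w x)).map A).getD i false = blk A x w i := by
    intro w i hi
    unfold QH
    rw [unpair_pairBits, List.map_map, List.getD_eq_getElem?_getD, List.getElem?_map,
      List.getElem?_range hi]
    show A (x ++ w ++ List.replicate (min i (w.length + k)) true) = _
    rw [min_eq_left hi.le]
    rfl
  have key : ∀ w : List Bool, HH k F.toList (pairBits w x, (QH k (pairBits w x)).map A) = true ↔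
      (∀ i < w.length, blk A x w i = true) ∧
        (List.range k).map (fun j => blk A x w (w.length + j)) ∈ F := by
    intro w
    unfold HH
    rw [unpair_pairBits, Bool.and_eq_true, List.all_eq_true, decide_eq_true_iff,
      Finset.mem_toList]
    refine and_congr ?_ ?_
    · constructor
      · intro h i hi
        rw [← hans w i (by omega)]
        exact h i (List.mem_range.2 hi)
      · intro h i hi
        replace hi : i < w.length := List.mem_range.1 hi
        show ((QH k (pairBits w x)).map A).getD i false = true
        rw [hans w i (by omega)]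
        exact h i hi
    · have : (List.range k).map (fun j => ((QH k (pairBits w x)).map A).getD (w.length + j) false) =
          (List.range k).map (fun j => blk A x w (w.length + j)) := by
        apply List.map_congr_left
        intro j hj
        exact hans w _ (by rw [List.mem_range] at hj; omega)
      rw [this]
  have hlen : ∀ w : List Bool, HH2 k F.toList (pairBits w x, (QH k (pairBits w x)).map A) = true ↔
      w.length = x.length ^ 2 ∧
        HH k F.toList (pairBits w x, (QH k (pairBits w x)).map A) = true := by
    intro w
    unfold HH2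
    rw [Bool.and_eq_true, decide_eq_true_iff]
    dsimp only
    rw [unpair_pairBits, sq]
  constructor
  · rintro ⟨w, hw, h⟩
    refine ⟨w, ?_, ?_⟩
    · rw [Polynomial.eval_pow, Polynomial.eval_X]
      exact hw.le
    · rw [← hw] at h
      rw [(hlen w).2 ⟨hw, (key w).2 h⟩]
  · rintro ⟨w, _, h⟩
    rw [List.cons.injEq] at h
    obtain ⟨hw, h2⟩ := (hlen w).1 h.1
    refine ⟨w, hw, ?_⟩
    dsimp only
    rw [← hw]
    exact (key w).1 h2

end Pool.Agent.TH681.Qa
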