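import Pool.Agent.TH681.Ex.Em

/-! Few errors are improbable: a union bound over the positions found by heavy questions. -/

set_option autoImplicit false

namespace Pool.Agent.TH681.Qa

open Finset H568R2 Pool.Agent.H591R3.PHG Pool.Agent.TH681.Ex Pool.Agent.TH681.Imm

section

variable {X W : Type} [Fintype X] [DecidableEq X] [Fintype W] [DecidableEq W]

/-- the union -/
def un (C S : X × W → Bool) : X × W → Bool := fun i => C i || S i

/-- the positions in a list -/
def ix (c : List (X × W)) : X × W → Bool := fun i => decide (i ∈ c)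

/-- one of the positions of the block is marked -/
def lg (S : X × W → Bool) (x : X) : Bool := decide (∃ w, S (x, w) = true)

/-- algorithms that ask for the marks; `q x S i` is the weight of the questions for the position
`i` -/
structure Sys (X W : Type) [Fintype X] [DecidableEq X] [Fintype W] [DecidableEq W]
    (R far : ℝ) where
  o : X → (X × W → Bool) → Bool
  right : X → (X × W → Bool) → Prop
  q : X → (X × W → Bool) → X × W → ℝ
  q0 : ∀ x S i, 0 ≤ q x S i
  qR : ∀ x S, ∑ i, q x S i ≤ R
  hyb : ∀ x C S, (∀ i, C i = true → S i = true) → right x S → o x C ≠ lg S x →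
    far ≤ ∑ i ∈ univ.filter (fun i => S i = true ∧ C i = false), q x C i

variable {R far : ℝ} (Y : Sys X W R far)

/-- the total weight -/
noncomputable def Sys.Q (C : X × W → Bool) (i : X × W) : ℝ := ∑ x, Y.q x C i

theorem Sys.Q0 (C : X × W → Bool) (i : X × W) : 0 ≤ Y.Q C i :=
  Finset.sum_nonneg fun x _ => Y.q0 x C i

theorem Sys.sum_Q (C : X × W → Bool) : ∑ i, Y.Q C i ≤ Fintype.card X * R := by
  unfold Sys.Q
  rw [Finset.sum_comm]
  refine (Finset.sum_le_sum fun x _ => Y.qR x C).trans (le_of_eq ?_)
  rw [Finset.sum_const, Finset.card_univ, nsmul_eq_mul]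

open Classical in
/-- the heavy positions -/
noncomputable def Sys.heavy (h : ℝ) (C : X × W → Bool) : Finset (X × W) :=
  univ.filter (fun i => C i = false ∧ h ≤ Y.Q C i)

theorem Sys.card_heavy {h : ℝ} (hh : 0 < h) (C : X × W → Bool) :
    ((Y.heavy h C).card : ℝ) ≤ Fintype.card X * R / h := by
  rw [le_div_iff₀ hh]
  refine le_trans ?_ (Y.sum_Q C)
  calc ((Y.heavy h C).card : ℝ) * h = ∑ _i ∈ Y.heavy h C, h := by
        rw [Finset.sum_const, nsmul_eq_mul]
    _ ≤ ∑ i ∈ Y.heavy h C, Y.Q C i := by
        apply Finset.sum_le_sum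
        intro i hi
        unfold Sys.heavy at hi
        exact (Finset.mem_filter.1 hi).2.2
    _ ≤ ∑ i, Y.Q C i :=
        Finset.sum_le_sum_of_subset_of_nonneg (Finset.subset_univ _) fun i _ _ => Y.Q0 C i

open Classical in
/-- the lists of positions, each of which is heavy when the former ones are marked -/
noncomputable def Sys.ch (h : ℝ) : ℕ → Finset (List (X × W))
  | 0 => {[]}
  | j + 1 => (Sys.ch h j).biUnion (fun c => (Y.heavy h (ix c)).image (fun s => s :: c))

theorem Sys.card_ch {h : ℝ} (hh : 0 < h) (hR : 0 ≤ R) : ∀ j : ℕ,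
    ((Y.ch h j).card : ℝ) ≤ (Fintype.card X * R / h) ^ j
  | 0 => by simp [Sys.ch]
  | j + 1 => by
    classical
    have hB : 0 ≤ Fintype.card X * R / h := by positivity
    have h0 : Y.ch h (j + 1) = (Y.ch h j).biUnion
      (fun c => (Y.heavy h (ix c)).image (fun s => s :: c)) := rfl
    have h1 : (Y.ch h (j + 1)).card ≤ ∑ c ∈ Y.ch h j, (Y.heavy h (ix c)).card := by
      rw [h0]
      exact Finset.card_biUnion_le.trans (Finset.sum_le_sum fun c _ => Finset.card_image_le)
    calc ((Y.ch h (j + 1)).card : ℝ) ≤ ((∑ c ∈ Y.ch h j, (Y.heavy h (ix c)).card : ℕ) : ℝ) := by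
          exact_mod_cast h1
      _ = ∑ c ∈ Y.ch h j, ((Y.heavy h (ix c)).card : ℝ) := by push_cast; rfl
      _ ≤ ∑ _c ∈ Y.ch h j, (Fintype.card X * R / h) :=
          Finset.sum_le_sum fun c _ => Y.card_heavy hh _
      _ = ((Y.ch h j).card : ℝ) * (Fintype.card X * R / h) := by
          rw [Finset.sum_const, nsmul_eq_mul]
      _ ≤ (Fintype.card X * R / h) ^ j * (Fintype.card X * R / h) :=
          mul_le_mul_of_nonneg_right (Sys.card_ch hh hR j) hB
      _ = _ := (pow_succ _ _).symm

theorem Sys.ch_spec {h : ℝ} : ∀ (j : ℕ) (c : List (X × W)), c ∈ Y.ch h j →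
    c.Nodup ∧ c.length = j
  | 0, c, hc => by
    rw [Sys.ch, Finset.mem_singleton] at hc
    subst hc
    simp
  | j + 1, c, hc => by
    classical
    rw [Sys.ch, Finset.mem_biUnion] at hc
    obtain ⟨c', hc', hc2⟩ := hc
    rw [Finset.mem_image] at hc2
    obtain ⟨s, hs, rfl⟩ := hc2
    obtain ⟨h1, h2⟩ := Sys.ch_spec j c' hc'
    unfold Sys.heavy at hs
    rw [Finset.mem_filter] at hs
    have h3 : s ∉ c' := by
      have := hs.2.1
      unfold ix at this
      simpa using this
    exact ⟨List.nodup_cons.2 ⟨h3, h1⟩, by rw [List.length_cons, h2]⟩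

theorem Sys.exists_ch (h : ℝ) (S : X × W → Bool) :
    ∃ j ≤ Fintype.card (X × W), ∃ c ∈ Y.ch h j, (∀ i ∈ c, S i = true) ∧
      ∀ i, S i = true → i ∉ Y.heavy h (ix c) := by
  classical
  by_contra hcon
  push Not at hcon
  have key : ∀ j, ∃ c ∈ Y.ch h j, ∀ i ∈ c, S i = true := by
    intro j
    induction j with
    | zero => exact ⟨[], by simp [Sys.ch], by simp⟩
    | succ j ih =>
      obtain ⟨c, hc, hcS⟩ := ih
      have hj : j ≤ Fintype.card (X × W) := by
        obtain ⟨h1, h2⟩ := Y.ch_spec j c hc
        rw [← h2]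
        exact h1.length_le_card
      obtain ⟨i, hi, hi2⟩ := hcon j hj c hc hcS
      refine ⟨i :: c, ?_, ?_⟩
      · rw [Sys.ch, Finset.mem_biUnion]
        exact ⟨c, hc, Finset.mem_image.2 ⟨i, hi2, rfl⟩⟩
      · intro i' hi'
        rcases List.mem_cons.1 hi' with rfl | h3
        · exact hi
        · exact hcS i' h3
  obtain ⟨c, hc, _⟩ := key (Fintype.card (X × W) + 1)
  obtain ⟨h1, h2⟩ := Y.ch_spec _ c hc
  have := h1.length_le_card
  omega

/-- conditioning on marked positions -/
theorem Ex_inter {p : ℝ} (c : List (X × W)) (hc : c.Nodup) (F : (X × W → Bool) → ℝ) :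
    Ex (ber p) (fun S : X × W → Bool => F S * (if ∀ i ∈ c, S i = true then (1 : ℝ) else 0)) =
      p ^ c.length * Ex (ber p) (fun S => F (un (ix c) S)) := by
  classical
  have h := Ex_indep (I := X × W) (ber_sum_m p) (fun b => b = true) c.toFinset
    (fun S => F (un (ix c) S)) (by
      intro i hi S a
      congr 1
      funext i'
      unfold un ix
      by_cases h1 : i' = i
      · subst h1
        rw [List.mem_toFinset] at hi
        simp [hi]
      · rw [Function.update_of_ne h1])
  have h2 : (∑ a ∈ univ.filter (fun b : Bool => b = true), ber p a) = p := by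
    have : univ.filter (fun b : Bool => b = true) = {true} := by
      ext b; simp
    rw [this, Finset.sum_singleton]
    simp [ber]
  rw [h2, List.toFinset_card_of_nodup hc] at h
  rw [← h]
  congr 1
  funext S
  by_cases h1 : ∀ i ∈ c, S i = true
  · have h3 : ∀ i ∈ c.toFinset, S i = true := fun i hi => h1 i (List.mem_toFinset.1 hi)
    rw [if_pos h1, if_pos h3]
    have h4 : un (ix c) S = S := by
      funext i
      unfold un ix
      by_cases hi : i ∈ c
      · simp [hi, h1 i hi]
      · simp [hi]
    rw [h4]
  · have h3 : ¬ ∀ i ∈ c.toFinset, S i = true := fun h' =>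
      h1 fun i hi => h' i (List.mem_toFinset.2 hi)
    rw [if_neg h1, if_neg h3, mul_zero, mul_zero]

/-- the marks in one row -/
theorem row {p θ ε : ℝ} (hθ1 : θ ≤ 1)
    (z0 : (1 - p) ^ Fintype.card W ≤ 1 / 2 + ε) (z1 : 1 - (1 - p) ^ Fintype.card W ≤ 1 / 2 + ε)
    (v : Bool) :
    EM (fun _ : W => ber p) (fun f : W → Bool =>
      if v ≠ decide (∃ w, f w = true) then θ else 1) ≤ θ + (1 - θ) * (1 / 2 + ε) := by
  classical
  have h0 : EM (fun _ : W => ber p) (fun f : W → Bool =>
      if ∀ w, f w = false then (1 : ℝ) else 0) = (1 - p) ^ Fintype.card W := by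
    have h1 := EM_prod_one (I := W) (μ := fun _ => ber p)
      (fun _ b => if b = false then (1 : ℝ) else 0)
    have h2 : ∑ b, ber p b * (if b = false then (1 : ℝ) else 0) = 1 - p := by
      rw [Fintype.sum_bool]
      simp [ber]
    rw [Finset.prod_congr rfl fun w _ => h2, Finset.prod_const, Finset.card_univ] at h1
    rw [← h1]
    congr 1
    funext f
    by_cases h3 : ∀ w, f w = false
    · rw [if_pos h3, Finset.prod_congr rfl fun w _ => if_pos (h3 w), Finset.prod_const_one]
    · rw [if_neg h3]
      push Not at h3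
      obtain ⟨w, hw⟩ := h3
      exact (Finset.prod_eq_zero (Finset.mem_univ w) (if_neg hw)).symm
  have hiff : ∀ f : W → Bool, decide (∃ w, f w = true) = !decide (∀ w, f w = false) := by
    intro f
    by_cases h : ∀ w, f w = false
    · have : ¬ ∃ w, f w = true := by
        rintro ⟨w, hw⟩
        rw [h w] at hw
        exact Bool.noConfusion hw
      simp [h]
    · have h2 : ∃ w, f w = true := by
        push Not at h
        obtain ⟨w, hw⟩ := h
        exact ⟨w, by simpa using hw⟩
      rw [decide_eq_true h2, decide_eq_false h]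
      rfl
  cases v with
  | true =>
    have h1 : (fun f : W → Bool => if true ≠ decide (∃ w, f w = true) then θ else 1) =
        fun f => 1 + (θ - 1) * (if ∀ w, f w = false then (1 : ℝ) else 0) := by
      funext f
      rw [hiff]
      by_cases h : ∀ w, f w = false
      · simp [h]
      · rw [decide_eq_false h, if_neg h]
        simp
    rw [h1, EM_add, EM_const (fun _ => ber_sum_m p), EM_smul, h0]
    nlinarith
  | false =>
    have h1 : (fun f : W → Bool => if false ≠ decide (∃ w, f w = true) then θ else 1) =
        fun f => θ + (1 - θ) * (if ∀ w, f w = false then (1 : ℝ) else 0) := by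
      funext f
      rw [hiff]
      by_cases h : ∀ w, f w = false
      · simp [h]
      · rw [decide_eq_false h, if_neg h]
        simp
    rw [h1, EM_add, EM_const (fun _ => ber_sum_m p), EM_smul, h0]
    nlinarith

/-- few errors for a fixed prediction -/
theorem pred_bound {p θ ε ρ : ℝ} (hp0 : 0 ≤ p) (hp1 : p ≤ 1) (hθ0 : 0 < θ) (hθ1 : θ ≤ 1)
    (hε : 0 ≤ ε)
    (z0 : (1 - p) ^ Fintype.card W ≤ 1 / 2 + ε) (z1 : 1 - (1 - p) ^ Fintype.card W ≤ 1 / 2 + ε)
    (hρ : ρ = θ + (1 - θ) * (1 / 2 + ε)) (hρ1 : ρ ≤ 1) (c : List (X × W)) (v : X → Bool)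
    (e : ℕ) :
    Ex (ber p) (fun S : X × W → Bool =>
      if (univ.filter (fun x => v x ≠ lg (un (ix c) S) x)).card ≤ e then (1 : ℝ) else 0) ≤
      (θ ^ e)⁻¹ * (ρ ^ Fintype.card X / ρ ^ c.length) := by
  classical
  have hb := ber_nonneg_m hp0 hp1
  have hρ0 : 0 < ρ := by rw [hρ]; nlinarith
  -- the touched rows
  set D : Finset X := c.toFinset.image Prod.fst with hD
  have hDc : D.card ≤ c.length := (Finset.card_image_le).trans (List.toFinset_card_le c)
  have hun : ∀ x ∉ D, ∀ S : X × W → Bool, lg (un (ix c) S) x = decide (∃ w, S (x, w) = true) := by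
    intro x hx S
    unfold lg
    have : ∀ w, un (ix c) S (x, w) = S (x, w) := by
      intro w
      have h1 : (x, w) ∉ c := fun h2 => hx (by
        rw [hD, Finset.mem_image]
        exact ⟨(x, w), List.mem_toFinset.2 h2, rfl⟩)
      unfold un ix
      simp [h1]
    simp only [this]
  have h1 : ∀ S : X × W → Bool,
      (if (univ.filter (fun x => v x ≠ lg (un (ix c) S) x)).card ≤ e then (1 : ℝ) else 0) ≤
      (θ ^ e)⁻¹ * ∏ x, (if x ∈ D then 1 else
        if v x ≠ decide (∃ w, S (x, w) = true) then θ else 1) := by
    intro S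
    have hpos : 0 < θ ^ e := by positivity
    have hprod0 : 0 ≤ ∏ x, (if x ∈ D then 1 else
        if v x ≠ decide (∃ w, S (x, w) = true) then θ else 1) := by
      apply Finset.prod_nonneg
      intro x _
      split_ifs <;> linarith
    split_ifs with h
    · rw [← div_eq_inv_mul, le_div_iff₀ hpos, one_mul]
      calc θ ^ e ≤ θ ^ (univ.filter (fun x => v x ≠ lg (un (ix c) S) x)).card :=
            pow_le_pow_of_le_one hθ0.le hθ1 h
        _ = ∏ x, (if v x ≠ lg (un (ix c) S) x then θ else 1) := by
            rw [Finset.prod_ite, Finset.prod_const_one, mul_one, Finset.prod_const]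
        _ ≤ _ := by
            apply Finset.prod_le_prod
            · intro x _
              split_ifs <;> linarith
            · intro x _
              by_cases hx : x ∈ D
              · rw [if_pos hx]
                split_ifs <;> linarith
              · rw [if_neg hx, hun x hx]
    · positivity
  refine (Ex_mono hb h1).trans ?_
  rw [Ex_smul]
  apply mul_le_mul_of_nonneg_left _ (by positivity)
  have h2 := EM_rows (X := X) (W := W) (fun _ => ber p)
    (fun x (f : W → Bool) => if x ∈ D then (1 : ℝ) else
      if v x ≠ decide (∃ w, f w = true) then θ else 1)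
  refine (le_of_eq (show _ = _ from h2)).trans ?_
  have h3 : ∀ x ∈ (univ : Finset X), EM (fun _ : W => ber p) (fun f : W → Bool =>
      if x ∈ D then (1 : ℝ) else if v x ≠ decide (∃ w, f w = true) then θ else 1) ≤
      if x ∈ D then 1 else ρ := by
    intro x _
    by_cases hx : x ∈ D
    · simp only [hx, if_true]
      rw [EM_const (fun _ => ber_sum_m p)]
    · simp only [hx, if_false]
      rw [hρ]
      exact row hθ1 z0 z1 (v x)
  have h4 : ∀ x ∈ (univ : Finset X), 0 ≤ EM (fun _ : W => ber p) (fun f : W → Bool =>
      if x ∈ D then (1 : ℝ) else if v x ≠ decide (∃ w, f w = true) then θ else 1) := by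
    intro x _
    unfold EM
    apply Finset.sum_nonneg
    intro f _
    apply mul_nonneg (Finset.prod_nonneg fun _ _ => hb _)
    by_cases hx : x ∈ D
    · simp only [hx, if_true]
      norm_num
    · simp only [hx, if_false]
      split_ifs <;> linarith
  refine (Finset.prod_le_prod h4 h3).trans ?_
  rw [Finset.prod_ite, Finset.prod_const_one, one_mul, Finset.prod_const]
  rw [le_div_iff₀ (by positivity), ← pow_add]
  apply pow_le_pow_of_le_one hρ0.le hρ1
  have h5 : (univ.filter (fun x => x ∉ D)).card + D.card = Fintype.card X := by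
    have h6 : univ.filter (fun x => x ∉ D) = univ \ D := by
      ext x; simp
    rw [h6, Finset.card_sdiff_of_subset (Finset.subset_univ D), Finset.card_univ]
    have := Finset.card_le_univ D
    omega
  omega

/-- the light positions -/
theorem light_bound {p h B M : ℝ} (hp0 : 0 ≤ p) (hp1 : p ≤ 1) (hh : 0 < h)
    (a : X × W → ℝ) (ha0 : ∀ i, 0 ≤ a i) (hah : ∀ i, a i ≤ h) (hM : ∑ i, a i ≤ M) :
    Ex (ber p) (fun S : X × W → Bool =>
      if B ≤ ∑ i ∈ univ.filter (fun i => S i = true), a i then (1 : ℝ) else 0) ≤
      Real.exp (-(B / h) + 2 * p * M / h) := by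
  classical
  have hb := ber_nonneg_m hp0 hp1
  have h1 : ∀ S : X × W → Bool,
      (if B ≤ ∑ i ∈ univ.filter (fun i => S i = true), a i then (1 : ℝ) else 0) ≤
      Real.exp (-(B / h)) * ∏ i, (if S i = true then Real.exp (a i / h) else 1) := by
    intro S
    have e1 : ∏ i, (if S i = true then Real.exp (a i / h) else 1) =
        Real.exp ((∑ i ∈ univ.filter (fun i => S i = true), a i) / h) := by
      rw [Finset.prod_ite, Finset.prod_const_one, mul_one, ← Real.exp_sum, Finset.sum_div]
    rw [e1, ← Real.exp_add]
    split_ifs with h2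
    · apply Real.one_le_exp
      have : B / h ≤ (∑ i ∈ univ.filter (fun i => S i = true), a i) / h :=
        div_le_div_of_nonneg_right h2 hh.le
      linarith
    · exact (Real.exp_pos _).le
  refine (Ex_mono hb h1).trans ?_
  rw [Ex_smul, Real.exp_add]
  apply mul_le_mul_of_nonneg_left _ (Real.exp_pos _).le
  have h2 := EM_prod_one (I := X × W) (μ := fun _ => ber p)
    (fun i b => if b = true then Real.exp (a i / h) else 1)
  refine (le_of_eq (show _ = _ from h2)).trans ?_
  have h3 : ∀ i ∈ (univ : Finset (X × W)),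
      ∑ b, ber p b * (if b = true then Real.exp (a i / h) else 1) ≤
      Real.exp (2 * p * a i / h) := by
    intro i _
    rw [Fintype.sum_bool]
    simp only [ber, if_true, Bool.false_eq_true, if_false]
    have e0 : 0 ≤ a i / h := div_nonneg (ha0 i) hh.le
    have e1 : a i / h ≤ 1 := by
      rw [div_le_one hh]
      exact hah i
    have e2 : Real.exp (a i / h) ≤ 1 + 2 * (a i / h) := by
      have e3 := Real.abs_exp_sub_one_le (x := a i / h) (by rw [abs_of_nonneg e0]; exact e1)
      rw [abs_of_nonneg e0] at e3
      have e4 := (abs_le.1 e3).2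
      linarith
    have e5 := Real.add_one_le_exp (2 * p * a i / h)
    have e6 : 2 * p * a i / h = p * (2 * (a i / h)) := by ring
    rw [e6] at e5 ⊢
    nlinarith
  have h4 : ∀ i ∈ (univ : Finset (X × W)),
      0 ≤ ∑ b, ber p b * (if b = true then Real.exp (a i / h) else 1) := by
    intro i _
    apply Finset.sum_nonneg
    intro b _
    apply mul_nonneg (hb b)
    split_ifs
    · exact (Real.exp_pos _).le
    · norm_num
  refine (Finset.prod_le_prod h4 h3).trans ?_
  rw [← Real.exp_sum]
  apply Real.exp_le_exp.2
  rw [← Finset.sum_div, ← Finset.mul_sum]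
  apply div_le_div_of_nonneg_right _ hh.le
  exact mul_le_mul_of_nonneg_left hM (by positivity)

open Classical in
/-- few errors are improbable -/
theorem Sys.bound {p h θ ε ρ : ℝ} (hp0 : 0 ≤ p) (hp1 : p ≤ 1) (hh : 0 < h) (hR : 0 ≤ R)
    (hfar : 0 < far) (hθ0 : 0 < θ) (hθ1 : θ ≤ 1) (hε : 0 ≤ ε)
    (z0 : (1 - p) ^ Fintype.card W ≤ 1 / 2 + ε) (z1 : 1 - (1 - p) ^ Fintype.card W ≤ 1 / 2 + ε)
    (hρ : ρ = θ + (1 - θ) * (1 / 2 + ε)) (hρ1 : ρ ≤ 1) (e d : ℕ)
    (hsmall : Fintype.card X * R / h * p / ρ ≤ 1 / 2) :
    Ex (ber p) (fun S : X × W → Bool =>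
      if (univ.filter (fun x => ¬ Y.right x S)).card ≤ e then (1 : ℝ) else 0) ≤
      2 * ((θ ^ (e + d))⁻¹ * ρ ^ Fintype.card X +
        Real.exp (-(d * far / h) + 2 * p * (Fintype.card X * R) / h)) := by
  have hb := ber_nonneg_m hp0 hp1
  have hρ0 : 0 < ρ := by rw [hρ]; nlinarith
  set K : ℝ := Fintype.card X * R with hK
  have hK0 : 0 ≤ K := by positivity
  set a : List (X × W) → X × W → ℝ := fun c i =>
    if ix c i = false ∧ Y.Q (ix c) i < h then Y.Q (ix c) i else 0 with ha
  have ha0 : ∀ c i, 0 ≤ a c i := by
    intro c i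
    simp only [ha]
    split_ifs
    · exact Y.Q0 _ _
    · exact le_rfl
  have hah : ∀ c i, a c i ≤ h := by
    intro c i
    simp only [ha]
    split_ifs with h1
    · exact h1.2.le
    · exact hh.le
  have haK : ∀ c, ∑ i, a c i ≤ K := by
    intro c
    refine (Finset.sum_le_sum fun i _ => ?_).trans (Y.sum_Q (ix c))
    simp only [ha]
    split_ifs
    · exact le_rfl
    · exact Y.Q0 _ _
  -- the two events for a list
  set F : List (X × W) → (X × W → Bool) → ℝ := fun c S =>
    (if (univ.filter (fun x => Y.o x (ix c) ≠ lg S x)).card ≤ e + d then (1 : ℝ) else 0) +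
      (if d * far ≤ ∑ i ∈ univ.filter (fun i => S i = true), a c i then (1 : ℝ) else 0) with hF
  have hF0 : ∀ c S, 0 ≤ F c S := by
    intro c S
    simp only [hF]
    apply add_nonneg <;> split_ifs <;> norm_num
  have hpt : ∀ S : X × W → Bool,
      (if (univ.filter (fun x => ¬ Y.right x S)).card ≤ e then (1 : ℝ) else 0) ≤
      ∑ j ∈ Finset.range (Fintype.card (X × W) + 1), ∑ c ∈ Y.ch h j,
        F c S * (if ∀ i ∈ c, S i = true then (1 : ℝ) else 0) := by
    intro S
    have hnn : ∀ c, 0 ≤ F c S * (if ∀ i ∈ c, S i = true then (1 : ℝ) else 0) := fun c =>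
      mul_nonneg (hF0 c S) (by split_ifs <;> norm_num)
    by_cases hr : (univ.filter (fun x => ¬ Y.right x S)).card ≤ e
    · rw [if_pos hr]
      obtain ⟨j, hj, c, hc, hcS, hlight⟩ := Y.exists_ch h S
      have h1 : (1 : ℝ) ≤ F c S := by
        set E2 := univ.filter (fun x => Y.right x S ∧ Y.o x (ix c) ≠ lg S x) with hE2
        have hsum : ((E2.card : ℕ) : ℝ) * far ≤
            ∑ i ∈ univ.filter (fun i => S i = true), a c i := by
          calc ((E2.card : ℕ) : ℝ) * far = ∑ _x ∈ E2, far := by
                rw [Finset.sum_const, nsmul_eq_mul]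
            _ ≤ ∑ x ∈ E2, ∑ i ∈ univ.filter (fun i => S i = true ∧ ix c i = false),
                  Y.q x (ix c) i := by
                apply Finset.sum_le_sum
                intro x hx
                rw [hE2, Finset.mem_filter] at hx
                refine Y.hyb x (ix c) S (fun i hi => ?_) hx.2.1 hx.2.2
                unfold ix at hi
                exact hcS i (by simpa using hi)
            _ ≤ ∑ x, ∑ i ∈ univ.filter (fun i => S i = true ∧ ix c i = false),
                  Y.q x (ix c) i :=
                Finset.sum_le_sum_of_subset_of_nonneg (Finset.subset_univ _) fun x _ _ =>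
                  Finset.sum_nonneg fun i _ => Y.q0 _ _ _
            _ = ∑ i ∈ univ.filter (fun i => S i = true ∧ ix c i = false), Y.Q (ix c) i := by
                rw [Finset.sum_comm]
                rfl
            _ ≤ ∑ i ∈ univ.filter (fun i => S i = true ∧ ix c i = false), a c i := by
                apply Finset.sum_le_sum
                intro i hi
                rw [Finset.mem_filter] at hi
                have h2 := hlight i hi.2.1
                unfold Sys.heavy at h2
                rw [Finset.mem_filter] at h2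
                have h3 : Y.Q (ix c) i < h := by
                  by_contra hcon
                  exact h2 ⟨Finset.mem_univ _, hi.2.2, not_lt.1 hcon⟩
                simp only [ha]
                rw [if_pos ⟨hi.2.2, h3⟩]
            _ ≤ _ := by
                apply Finset.sum_le_sum_of_subset_of_nonneg
                · intro i hi
                  rw [Finset.mem_filter] at hi ⊢
                  exact ⟨hi.1, hi.2.1⟩
                · intro i _ _
                  exact ha0 c i
        simp only [hF]
        by_cases hE : E2.card ≤ d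
        · have h3 : (univ.filter (fun x => Y.o x (ix c) ≠ lg S x)).card ≤ e + d := by
            have h4 : univ.filter (fun x => Y.o x (ix c) ≠ lg S x) ⊆
                univ.filter (fun x => ¬ Y.right x S) ∪ E2 := by
              intro x hx
              rw [Finset.mem_filter] at hx
              rw [Finset.mem_union, hE2, Finset.mem_filter, Finset.mem_filter]
              by_cases hrx : Y.right x S
              · exact Or.inr ⟨Finset.mem_univ _, hrx, hx.2⟩
              · exact Or.inl ⟨Finset.mem_univ _, hrx⟩
            have h5 := (Finset.card_le_card h4).trans (Finset.card_union_le _ _)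
            omega
          rw [if_pos h3]
          have : (0 : ℝ) ≤ (if d * far ≤ ∑ i ∈ univ.filter (fun i => S i = true), a c i
            then (1 : ℝ) else 0) := by split_ifs <;> norm_num
          linarith
        · have h3 : (d : ℝ) * far ≤ ∑ i ∈ univ.filter (fun i => S i = true), a c i := by
            refine le_trans ?_ hsum
            apply mul_le_mul_of_nonneg_right _ hfar.le
            have : d ≤ E2.card := by omega
            exact_mod_cast this
          rw [if_pos h3]
          have : (0 : ℝ) ≤ (if (univ.filter (fun x => Y.o x (ix c) ≠ lg S x)).card ≤ e + d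
            then (1 : ℝ) else 0) := by split_ifs <;> norm_num
          linarith
      calc (1 : ℝ) ≤ F c S * (if ∀ i ∈ c, S i = true then (1 : ℝ) else 0) := by
            rw [if_pos hcS, mul_one]
            exact h1
        _ ≤ ∑ c ∈ Y.ch h j, F c S * (if ∀ i ∈ c, S i = true then (1 : ℝ) else 0) :=
            Finset.single_le_sum (f := fun c => F c S *
              (if ∀ i ∈ c, S i = true then (1 : ℝ) else 0)) (fun c _ => hnn c) hc
        _ ≤ _ := Finset.single_le_sum (f := fun j => ∑ c ∈ Y.ch h j, F c S *
              (if ∀ i ∈ c, S i = true then (1 : ℝ) else 0))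
              (fun j _ => Finset.sum_nonneg fun c _ => hnn c)
              (Finset.mem_range.2 (Nat.lt_succ_of_le hj))
    · rw [if_neg hr]
      exact Finset.sum_nonneg fun j _ => Finset.sum_nonneg fun c _ => hnn c
  refine (Ex_mono hb hpt).trans ?_
  rw [Ex_sum]
  set G : ℝ := (θ ^ (e + d))⁻¹ * ρ ^ Fintype.card X +
    Real.exp (-(d * far / h) + 2 * p * K / h) with hG
  have hG0 : 0 ≤ G := by positivity
  have hone : ∀ j ∈ Finset.range (Fintype.card (X × W) + 1),
      Ex (ber p) (fun S : X × W → Bool => ∑ c ∈ Y.ch h j,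
        F c S * (if ∀ i ∈ c, S i = true then (1 : ℝ) else 0)) ≤ (1 / 2) ^ j * G := by
    intro j _
    rw [Ex_sum]
    have h1 : ∀ c ∈ Y.ch h j, Ex (ber p) (fun S : X × W → Bool =>
        F c S * (if ∀ i ∈ c, S i = true then (1 : ℝ) else 0)) ≤ p ^ j * (G / ρ ^ j) := by
      intro c hc
      obtain ⟨h2, h3⟩ := Y.ch_spec j c hc
      rw [Ex_inter c h2, h3]
      apply mul_le_mul_of_nonneg_left _ (by positivity)
      simp only [hF]
      rw [Ex_add]
      have h4 := pred_bound (X := X) (W := W) hp0 hp1 hθ0 hθ1 hε z0 z1 hρ hρ1 c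
        (fun x => Y.o x (ix c)) (e + d)
      rw [h3] at h4
      have h5 := light_bound (X := X) (W := W) (B := d * far) hp0 hp1 hh (a c) (ha0 c) (hah c)
        (haK c)
      have h6 : Ex (ber p) (fun S : X × W → Bool => if d * far ≤
          ∑ i ∈ univ.filter (fun i => un (ix c) S i = true), a c i then (1 : ℝ) else 0) ≤
          Real.exp (-(d * far / h) + 2 * p * K / h) := by
        refine le_trans (le_of_eq ?_) h5
        congr 1
        funext S
        have h7 : ∑ i ∈ univ.filter (fun i => un (ix c) S i = true), a c i =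
            ∑ i ∈ univ.filter (fun i => S i = true), a c i := by
          rw [Finset.sum_filter, Finset.sum_filter]
          refine Finset.sum_congr rfl fun i _ => ?_
          unfold un
          cases hi : ix c i with
          | false => simp
          | true =>
            have h8 : a c i = 0 := by
              simp only [ha, hi]
              simp
            simp [h8]
        rw [h7]
      have h7 : Real.exp (-(d * far / h) + 2 * p * K / h) ≤
          Real.exp (-(d * far / h) + 2 * p * K / h) / ρ ^ j := by
        rw [le_div_iff₀ (by positivity)]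
        have : ρ ^ j ≤ 1 := pow_le_one₀ hρ0.le hρ1
        have h9 := (Real.exp_pos (-(d * far / h) + 2 * p * K / h)).le
        nlinarith
      rw [hG, add_div]
      have h8 : (θ ^ (e + d))⁻¹ * (ρ ^ Fintype.card X / ρ ^ j) =
          (θ ^ (e + d))⁻¹ * ρ ^ Fintype.card X / ρ ^ j := by ring
      rw [h8] at h4
      exact add_le_add h4 (h6.trans h7)
    refine (Finset.sum_le_sum h1).trans ?_
    rw [Finset.sum_const, nsmul_eq_mul]
    have h2 := Y.card_ch hh hR j
    calc ((Y.ch h j).card : ℝ) * (p ^ j * (G / ρ ^ j)) ≤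
        (Fintype.card X * R / h) ^ j * (p ^ j * (G / ρ ^ j)) :=
          mul_le_mul_of_nonneg_right h2 (by positivity)
      _ = (Fintype.card X * R / h * p / ρ) ^ j * G := by
          rw [div_pow (_ * p), mul_pow]
          ring
      _ ≤ (1 / 2) ^ j * G := by
          apply mul_le_mul_of_nonneg_right _ hG0
          exact pow_le_pow_left₀ (by positivity) hsmall _
  refine (Finset.sum_le_sum hone).trans ?_
  rw [← Finset.sum_mul]
  apply mul_le_mul_of_nonneg_right _ hG0
  exact sum_geometric_two_le _

end

end Pool.Agent.TH681.Qa
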