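import Pool.Agent.H620R2.GaugeQ.Defs
import Pool.Agent.TH681.Pa.Defs

/-!
# Quantum algorithms with advice that may err

The oracles, the polynomial-time oracle algorithms `Alg`, the quantum circuits and the probability
`accProb A c` that the circuit `c` accepts with the oracle `A` are those of
`Pool.Agent.H620R2.Gauge`; `two A H` is the oracle that answers questions `0 y` about `A` and
questions `1 y` about `H`.
-/

set_option autoImplicit false

namespace Pool.Agent.TH681.Qa

open Pool.Agent.NPC Pool.Agent.H620R2.Gauge Pool.Agent.TH681.Adv

/-- The number of the inputs `x` of length `n` on which the quantum algorithm is wrong: it is not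
true that the circuit `C ⟨1 ^ m, x⟩`, whose oracle gates ask for bits of `A` and for bits of the
advice `H`, accepts with probability at least `2 / 3` if `x` is in `L` and at most `1 / 3`
otherwise. -/
noncomputable def wrongQ (C : List Bool → List Unit × List Gate) (A H : Oracle) (m : ℕ)
    (L : Set (List Bool)) (n : ℕ) : ℕ :=
  {x : List Bool | x.length = n ∧
    ¬ ((x ∈ L → 2 / 3 ≤ accProb (two A H) (C (pairBits (List.replicate m true) x))) ∧
      (x ∉ L → accProb (two A H) (C (pairBits (List.replicate m true) x)) ≤ 1 / 3))}.ncard

end Pool.Agent.TH681.Qa
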