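import Pool.Agent.TH681.Qa.Stage
import Pool.Agent.TH681.Pa.Num
import Pool.Agent.TH681.Ex.Main

/-! The lower bound for almost all oracles. -/

set_option autoImplicit false

namespace Pool.Agent.TH681.Qa

open Finset Filter Topology Pool.Agent.NPC Pool.Agent.TH681 Pool.Agent.TH681.Ex
  Pool.Agent.TH681.Imm Pool.Agent.H620R2.Gauge Pool.Agent.TH681.Adv MeasureTheory
open Pool.Agent.H628R3.RO (randomOracle coin)
open Pool.Agent.TH681.Pa (Bits num_len num_eval)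

/-- real variables -/
theorem real_t1 {d K R η p ρ X : ℝ} (hη : 0 < η) (hK : 1 ≤ K) (hR : 0 < R) (hX : 0 < X)
    (hd2 : η * K / 2 ≤ d) (hp0 : 0 < p) (hp : p ≤ 1 / X) (hρ : 1 / 2 ≤ ρ)
    (hn : 13824 / η * (K * R ^ 2) ≤ X) :
    K * R / (d * (1 / (576 * R)) / (3 * K)) * p / ρ ≤ 1 / 2 := by
  have hK0 : 0 < K := by linarith
  have hd0 : 0 < d := lt_of_lt_of_le (by positivity) hd2
  obtain ⟨h, hh⟩ : ∃ h : ℝ, h = d * (1 / (576 * R)) / (3 * K) := ⟨_, rfl⟩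
  rw [← hh]
  have hh0 : 0 < h := by rw [hh]; positivity
  have hh1 : η / (3456 * R) ≤ h := by
    rw [hh, div_le_div_iff₀ (by positivity) (by positivity)]
    have h1 : d * (1 / (576 * R)) * (3456 * R) = 6 * d := by
      rw [one_div, mul_inv]
      have : d * (576⁻¹ * R⁻¹) * (3456 * R) = d * (576⁻¹ * 3456) * (R⁻¹ * R) := by ring
      rw [this, inv_mul_cancel₀ hR.ne']
      ring
    rw [h1]
    linarith
  have h1 : K * R / h ≤ 3456 / η * (K * R ^ 2) := by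
    rw [div_le_iff₀ hh0]
    calc K * R = 3456 / η * (K * R ^ 2) * (η / (3456 * R)) := by field_simp
      _ ≤ 3456 / η * (K * R ^ 2) * h := mul_le_mul_of_nonneg_left hh1 (by positivity)
  have h2 : K * R / h * p ≤ 3456 / η * (K * R ^ 2) * (1 / X) :=
    mul_le_mul h1 hp hp0.le (by positivity)
  have h3 : 3456 / η * (K * R ^ 2) * (1 / X) ≤ 1 / 4 := by
    rw [mul_one_div, div_le_div_iff₀ (by positivity) (by norm_num), one_mul]
    have : 3456 / η * (K * R ^ 2) * 4 = 13824 / η * (K * R ^ 2) := by ring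
    rw [this]
    exact hn
  rw [div_le_iff₀ (by linarith)]
  linarith

theorem real_e1 {d K R : ℝ} (hd : 0 < d) (hK : 0 < K) (hR : 0 < R) :
    d * (1 / (576 * R)) / (d * (1 / (576 * R)) / (3 * K)) = 3 * K := by
  rw [div_div_cancel₀]
  positivity

theorem real_t2 {K Y lam u P : ℝ} (hK : 1 ≤ K) (hY0 : 0 ≤ Y) (hY : Y ≤ Real.exp K)
    (hu : u ≤ 1) (hlam : lam ≤ 1) (hP : P = 3 * K) :
    Y * Real.exp (-P + u) ≤ 3 * Real.exp (-(lam / 2 * K)) := by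
  subst hP
  calc Y * Real.exp (-(3 * K) + u) ≤ Real.exp K * Real.exp (-(3 * K) + 1) := by
        apply mul_le_mul hY _ (Real.exp_pos _).le (Real.exp_pos _).le
        apply Real.exp_le_exp.2
        linarith
    _ = Real.exp 1 * Real.exp (-(2 * K)) := by
        rw [← Real.exp_add, ← Real.exp_add]
        congr 1
        ring
    _ ≤ 3 * Real.exp (-(lam / 2 * K)) := by
        apply mul_le_mul _ _ (Real.exp_pos _).le (by norm_num)
        · have := Real.exp_one_lt_d9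
          linarith
        · apply Real.exp_le_exp.2
          nlinarith

theorem two_pow_le_exp {S n : ℕ} (h : S ≤ 2 ^ n) : (2 : ℝ) ^ S ≤ Real.exp (2 ^ n) := by
  have hlog1 : Real.log 2 ≤ 1 := by
    have := Real.log_two_lt_d9
    linarith
  calc (2 : ℝ) ^ S ≤ 2 ^ (2 ^ n) := pow_le_pow_right₀ (by norm_num) h
    _ = Real.exp (((2 ^ n : ℕ) : ℝ) * Real.log 2) := by
        rw [Real.exp_nat_mul, Real.exp_log (by norm_num)]
    _ ≤ Real.exp (2 ^ n) := by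
        apply Real.exp_le_exp.2
        push_cast
        have : (0 : ℝ) < 2 ^ n := by positivity
        nlinarith

/-- the first half of the estimate -/
theorem bq_small {n d E : ℕ} {δ₁ ε p θ ρ η : ℝ} (hδ0 : 0 < δ₁) (hδ1 : δ₁ < 1 / 2)
    (hε : 0 < ε) (hθ : θ = δ₁ / (1 - δ₁))
    (hρ : ρ = θ + (1 - θ) * (1 / 2 + ε)) (hp0 : 0 < p) (hp : p ≤ 1 / 2 ^ (n ^ 2))
    (hη : 0 < η) (hd2 : η * 2 ^ n / 2 ≤ d)
    (hn : 13824 / η * (2 ^ n * (2 ^ (E * n)) ^ 2) ≤ 2 ^ (n ^ 2)) :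
    2 ^ n * 2 ^ (E * n) / (d * (1 / (576 * 2 ^ (E * n))) / (3 * 2 ^ n)) * p / ρ ≤ 1 / 2 := by
  have hδ2 : 0 < 1 - δ₁ := by linarith
  have hθ0 : 0 < θ := by rw [hθ]; positivity
  have hθ1 : θ < 1 := by
    rw [hθ, div_lt_one hδ2]
    linarith
  have hρ2 : 1 / 2 ≤ ρ := by rw [hρ]; nlinarith
  exact real_t1 hη (one_le_pow₀ (by norm_num)) (by positivity) (by positivity) hd2 hp0 hp
    hρ2 hn

/-- the estimate -/
theorem bq_le {n e d S E : ℕ} {α δ δ₁ lam ε p θ ρ η : ℝ} (hδ0 : 0 < δ₁) (hδ1 : δ₁ < 1 / 2)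
    (hα : 0 ≤ α) (hlam : lam = Real.log 2 - Real.binEntropy δ₁ - α * Real.log 2)
    (hpos : 0 < lam) (hε : 0 < ε) (hε' : ε ≤ lam / 8) (hε1 : ε ≤ 1 / 4)
    (hθ : θ = δ₁ / (1 - δ₁))
    (hρ : ρ = θ + (1 - θ) * (1 / 2 + ε)) (hp0 : 0 < p) (hp : p ≤ 1 / 2 ^ (n ^ 2))
    (hη : 0 < η) (hδη : δ + η ≤ δ₁) (hS : (S : ℝ) ≤ α * 2 ^ n) (he : (e : ℝ) ≤ δ * 2 ^ n)
    (hd1 : (d : ℝ) ≤ η * 2 ^ n) (hd2 : η * 2 ^ n / 2 ≤ d)
    (hn : 13824 / η * (2 ^ n * (2 ^ (E * n)) ^ 2) ≤ 2 ^ (n ^ 2)) :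
    2 ^ S * bq n e d p (d * (1 / (576 * 2 ^ (E * n))) / (3 * 2 ^ n)) θ ρ (2 ^ (E * n)) ≤
      4 * (2 * Real.exp (-(lam / 2 * 2 ^ n))) := by
  have hsmall := bq_small hδ0 hδ1 hε hθ hρ hp0 hp hη hd2 hn
  have hlog : 0 < Real.log 2 := Real.log_pos (by norm_num)
  have hlog1 : Real.log 2 ≤ 1 := by
    have := Real.log_two_lt_d9
    linarith
  have hδ2 : 0 < 1 - δ₁ := by linarith
  have hθ0 : 0 < θ := by rw [hθ]; positivity
  have hθ1 : θ < 1 := by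
    rw [hθ, div_lt_one hδ2]
    linarith
  have hH : 0 ≤ Real.binEntropy δ₁ := Real.binEntropy_nonneg hδ0.le (by linarith)
  have hαl : 0 ≤ α * Real.log 2 := mul_nonneg hα hlog.le
  have hlam1 : lam ≤ 1 := by linarith
  have hα1 : α ≤ 1 := by
    by_contra hcon
    rw [not_le] at hcon
    have := mul_lt_mul_of_pos_right hcon hlog
    linarith
  have hρ2 : 1 / 2 ≤ ρ := by rw [hρ]; nlinarith
  have hρ1 : ρ ≤ 1 := by
    rw [hρ]
    nlinarith
  have hd0 : (0 : ℝ) < d := lt_of_lt_of_le (by positivity) hd2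
  have hS2 : S ≤ 2 ^ n := by
    have h1 : (S : ℝ) ≤ ((2 ^ n : ℕ) : ℝ) := by
      push_cast
      refine hS.trans ?_
      have : (0 : ℝ) < 2 ^ n := by positivity
      calc α * 2 ^ n ≤ 1 * 2 ^ n := mul_le_mul_of_nonneg_right hα1 this.le
        _ = 2 ^ n := one_mul _
    exact_mod_cast h1
  -- the second term
  have hu : 2 * p * (2 ^ n * 2 ^ (E * n)) / (d * (1 / (576 * 2 ^ (E * n))) / (3 * 2 ^ n)) ≤
      1 := by
    have h3 : 2 ^ n * 2 ^ (E * n) / (d * (1 / (576 * 2 ^ (E * n))) / (3 * 2 ^ n)) * p ≤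
        1 / 2 * ρ := by
      rwa [div_le_iff₀ (by linarith)] at hsmall
    have h4 : 2 * p * (2 ^ n * 2 ^ (E * n)) / (d * (1 / (576 * 2 ^ (E * n))) / (3 * 2 ^ n)) =
        2 * (2 ^ n * 2 ^ (E * n) / (d * (1 / (576 * 2 ^ (E * n))) / (3 * 2 ^ n)) * p) := by
      rw [div_mul_eq_mul_div, ← mul_div_assoc]
      congr 1
      ring
    rw [h4]
    linarith
  have t2 := real_t2 (K := 2 ^ n) (Y := 2 ^ S) (lam := lam) (one_le_pow₀ (by norm_num))
    (by positivity) (two_pow_le_exp hS2) hu hlam1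
    (real_e1 (R := 2 ^ (E * n)) hd0 (K := 2 ^ n) (by positivity) (by positivity))
  -- the first term
  obtain ⟨C', hC'⟩ := exists_nat_ge (8 / lam)
  have hm : ((e + d : ℕ) : ℝ) ≤ δ₁ * 2 ^ n := by
    push_cast
    have : δ * 2 ^ n + η * 2 ^ n ≤ δ₁ * 2 ^ n := by
      rw [← add_mul]
      exact mul_le_mul_of_nonneg_right hδη (by positivity)
    linarith
  have t3 := Ex.estimate (α := α) (v := 0) (γ := 0) (T := 0) (S := S) (m := e + d) (n := n)
    (p := 1) (ε := ε) (C := C') (ρ := ρ) hδ0 hδ1 hlam hpos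
    hε hε' hC' hθ hρ one_pos (by norm_num) (by simp) hS hm
  rw [Nat.mul_zero, pow_zero, one_mul] at t3
  have t3' : (2 : ℝ) ^ S * ((θ ^ (e + d))⁻¹ * ρ ^ 2 ^ n) ≤ Real.exp (-(lam / 2 * 2 ^ n)) := by
    rw [pow_succ] at t3
    linarith
  unfold bq
  have e3 : ∀ Y a b : ℝ, Y * (2 * (a + b)) = 2 * (Y * a) + 2 * (Y * b) := fun Y a b => by ring
  rw [e3]
  linarith

/-- the algorithm is good with some advice -/
def BadQ (C : List Bool → List Unit × List Gate) (k : ℕ) (F : Finset (List Bool))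
    (c S e n : ℕ) : Set Oracle :=
  {A | ∃ m : ℕ, m ≤ 2 ^ (c * n) ∧ ∃ H, Bits H S ∧
    wrongQ C A H m (HL A k F (fun n => n ^ 2)) n ≤ e}

theorem large_square (η : ℝ) (E : ℕ) : ∀ᶠ n : ℕ in atTop,
    13824 / η * (2 ^ n * (2 ^ (E * n)) ^ 2) ≤ (2 : ℝ) ^ (n ^ 2) := by
  obtain ⟨c₁, hc₁⟩ := pow_unbounded_of_one_lt (13824 / η) (by norm_num : (1 : ℝ) < 2)
  filter_upwards [eventually_ge_atTop (c₁ + 2 * E + 1), eventually_ge_atTop 1] with n hn hn1
  have h1 : (2 : ℝ) ^ n * (2 ^ (E * n)) ^ 2 = 2 ^ (n + 2 * (E * n)) := by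
    rw [← pow_mul, ← pow_add]
    congr 1
    ring
  rw [h1]
  calc 13824 / η * 2 ^ (n + 2 * (E * n)) ≤ 2 ^ c₁ * 2 ^ (n + 2 * (E * n)) :=
        mul_le_mul_of_nonneg_right hc₁.le (by positivity)
    _ = 2 ^ (c₁ + (n + 2 * (E * n))) := by rw [← pow_add]
    _ ≤ 2 ^ (n ^ 2) := by
        apply pow_le_pow_right₀ (by norm_num)
        have h2 : (c₁ + 2 * E + 1) * n ≤ n * n := Nat.mul_le_mul_right _ hn
        have h3 : c₁ * 1 ≤ c₁ * n := Nat.mul_le_mul_left _ hn1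
        have h4 : (c₁ + 2 * E + 1) * n = c₁ * n + 2 * (E * n) + n := by ring
        have h5 : n ^ 2 = n * n := by ring
        omega

theorem badQ_le {α δ η : ℝ} (hδ0 : 0 < δ) (hη : 0 < η) (hδ1 : δ + η < 1 / 2) (hα : 0 ≤ α)
    (hpos : α * Real.log 2 + Real.binEntropy (δ + η) < Real.log 2) :
    ∃ (k : ℕ) (F : Finset (Fin k → Bool)), ∀ C : List Bool → List Unit × List Gate,
      PolyTime (fun x => bits (C x)) → ∀ c : ℕ, ∀ᶠ n : ℕ in atTop,
      randomOracle (BadQ C k (F.image List.ofFn) c ⌊α * 2 ^ n⌋₊ ⌊δ * 2 ^ n⌋₊ n) ≤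
        ENNReal.ofReal ((1 / 2) ^ n) := by
  set lam : ℝ := Real.log 2 - Real.binEntropy (δ + η) - α * Real.log 2 with hlam
  have hlam0 : 0 < lam := by linarith
  set ε : ℝ := min (lam / 8) (1 / 4) with hε
  have hε0 : 0 < ε := lt_min (by linarith) (by norm_num)
  have hε1 : ε ≤ lam / 8 := min_le_left _ _
  have hε2 : ε < 1 / 2 := (min_le_right _ _).trans_lt (by norm_num)
  obtain ⟨k, F, v₀, hv₀⟩ := exists_par hε0 hε2
  refine ⟨k, F, fun C hC c => ?_⟩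
  obtain ⟨b, hb⟩ := circ_bound hC
  set E : ℕ := (c + 2) * b.natDegree + 1 with hE
  filter_upwards [eventually_ge_atTop (v₀ + 2), large_square η E,
    poly_lt (Polynomial.C (b.eval 1)), poly_lt (Polynomial.C (c + 3) * Polynomial.X + 4),
    Ex.small_eventually hlam0,
    (tendsto_pow_atTop_atTop_of_one_lt (by norm_num : (1 : ℝ) < 2)).eventually
      (eventually_ge_atTop (2 / η))] with n hn h1 h2 h3 h4 h5
  rw [Polynomial.eval_C] at h2
  have h3' : (c + 3) * n + 4 ≤ 2 ^ (n / 8) := by simpa using h3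
  have h8 : 2 ^ (n / 8) ≤ 2 ^ n := Nat.pow_le_pow_right (by norm_num) (Nat.div_le_self _ _)
  set θ : ℝ := (δ + η) / (1 - (δ + η)) with hθ
  have hδ2 : 0 < 1 - (δ + η) := by linarith
  have hθ0 : 0 < θ := by rw [hθ]; positivity
  have hθ1 : θ ≤ 1 := by
    rw [hθ, div_le_one hδ2]
    linarith
  have hv : v₀ ≤ n ^ 2 := by nlinarith
  obtain ⟨p, q, hp, P⟩ := hv₀ (n ^ 2) hv θ hθ0.le hθ1
  set ρ : ℝ := θ + (1 - θ) * (1 / 2 + ε) with hρ
  have hρ1 : ρ ≤ 1 := by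
    rw [hρ]
    nlinarith
  set S : ℕ := ⌊α * 2 ^ n⌋₊ with hS
  set e : ℕ := ⌊δ * 2 ^ n⌋₊ with he
  set d : ℕ := ⌊η * 2 ^ n⌋₊ with hd
  have hS' : (S : ℝ) ≤ α * 2 ^ n := Nat.floor_le (by positivity)
  have he' : (e : ℝ) ≤ δ * 2 ^ n := Nat.floor_le (by positivity)
  have hd1 : (d : ℝ) ≤ η * 2 ^ n := Nat.floor_le (by positivity)
  have hd2 : η * 2 ^ n / 2 ≤ d := by
    have h6 : η * 2 ^ n < d + 1 := Nat.lt_floor_add_one _
    have h7 : 2 ≤ η * 2 ^ n := by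
      rw [div_le_iff₀ hη] at h5
      linarith
    linarith
  have hδ₁ : 0 < δ + η := by linarith
  have hsmall := bq_small hδ₁ hδ1 hε0 hθ hρ P.p0 hp hη hd2 h1
  have hbq := bq_le (α := α) (δ := δ) (lam := lam) (ε := ε) (p := p) (θ := θ)
    (ρ := ρ) (η := η) (E := E) hδ₁ hδ1 hα rfl hlam0 hε0 hε1 (min_le_right _ _) hθ hρ P.p0 hp
    hη le_rfl hS' he' hd1 hd2 h1
  set h : ℝ := d * (1 / (576 * 2 ^ (E * n))) / (3 * 2 ^ n) with hh
  have hd0 : (0 : ℝ) < d := lt_of_lt_of_le (by positivity) hd2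
  have hh0 : 0 < h := by positivity
  have hW : Fintype.card (Fin (n ^ 2) → Bool) = 2 ^ (n ^ 2) := by
    rw [Fintype.card_fun, Fintype.card_bool, Fintype.card_fin]
  have hB : Fintype.card (Fin (n ^ 2 + k) → Bool) = 2 ^ (n ^ 2 + k) := by
    rw [Fintype.card_fun, Fintype.card_bool, Fintype.card_fin]
  have hpF : p = F.card / 2 ^ (n ^ 2 + k) := by
    have h6 := P.hp
    rw [card_spec, hB] at h6
    rw [h6]
    push_cast
    rfl
  have hF0 : 0 < F.card := by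
    have h6 := P.p0
    rw [hpF] at h6
    by_contra hcon
    have h7 : F.card = 0 := by omega
    rw [h7] at h6
    simp at h6
  have hF1 : F.card < 2 ^ (n ^ 2 + k) := by
    have h6 := P.p1
    rw [hpF, div_lt_one (by positivity)] at h6
    exact_mod_cast h6
  have z0 := P.z0
  have z1 := P.z1
  rw [hW] at z0 z1
  have hsub : BadQ C k (F.image List.ofFn) c S e n ⊆ ⋃ m ∈ Finset.range (2 ^ (c * n) + 1),
      {A : Oracle | ∃ H, Bits H S ∧
        wrongQ C A H m (HL A k (F.image List.ofFn) (fun n => n ^ 2)) n ≤ e} := by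
    rintro A ⟨m, hm, hA⟩
    simp only [Set.mem_iUnion]
    exact ⟨m, Finset.mem_range.2 (Nat.lt_succ_of_le hm), hA⟩
  refine (measure_mono hsub).trans ((measure_biUnion_finset_le _ _).trans ?_)
  have hone : ∀ m ∈ Finset.range (2 ^ (c * n) + 1), randomOracle {A : Oracle | ∃ H, Bits H S ∧
        wrongQ C A H m (HL A k (F.image List.ofFn) (fun n => n ^ 2)) n ≤ e} ≤
      ENNReal.ofReal (4 * (2 * Real.exp (-(lam / 2 * 2 ^ n)))) := by
    intro m hm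
    have hm' : m ≤ 2 ^ (c * n) := Nat.le_of_lt_succ (Finset.mem_range.1 hm)
    have hlen : 2 * m + 1 + n ≤ 2 ^ ((c + 2) * n) := by
      have h6 := num_len (c := c) (n := n) (k := 1) (m := m) (by omega) Nat.one_le_two_pow hm'
      omega
    have hR : ((b.eval (2 * m + 1 + n) : ℕ) : ℝ) ≤ 2 ^ (E * n) := by
      have h6 := num_eval b (h2.trans h8) hlen
      exact_mod_cast h6
    exact (all_H (v := n ^ 2) (g := fun n => n ^ 2) hb m (by positivity) hR hF0 hF1 hpF P.p0.le P.p1.le hh0 hθ0 hθ1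
      hε0.le z0 z1 hρ hρ1 e d S hsmall rfl).trans (ENNReal.ofReal_le_ofReal hbq)
  refine (Finset.sum_le_sum hone).trans ?_
  rw [Finset.sum_const, Finset.card_range, nsmul_eq_mul, ← ENNReal.ofReal_natCast,
    ← ENNReal.ofReal_mul (by positivity)]
  apply ENNReal.ofReal_le_ofReal
  refine le_trans ?_ h4
  have h9 : (2 ^ (c * n) + 1) * 4 ≤ 2 ^ (3 * 2 ^ (n / 2) + 1) := by
    calc (2 ^ (c * n) + 1) * 4 ≤ 2 ^ (c * n + 1) * 4 := by
          apply Nat.mul_le_mul_right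
          rw [pow_succ]
          have h7 : 1 ≤ 2 ^ (c * n) := Nat.one_le_two_pow
          omega
      _ = 2 ^ (c * n + 3) := by ring
      _ ≤ 2 ^ (3 * 2 ^ (n / 2) + 1) := by
          apply Nat.pow_le_pow_right (by norm_num)
          have h9 : 2 ^ (n / 8) ≤ 2 ^ (n / 2) := Nat.pow_le_pow_right (by norm_num) (by omega)
          have h10 : (c + 3) * n = c * n + 3 * n := by ring
          omega
  have h6 : ((2 ^ (c * n) + 1 : ℕ) : ℝ) * 4 ≤ 2 ^ (3 * 2 ^ (n / 2) + 1) := by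
    exact_mod_cast h9
  calc ((2 ^ (c * n) + 1 : ℕ) : ℝ) * (4 * (2 * Real.exp (-(lam / 2 * 2 ^ n))))
      = (((2 ^ (c * n) + 1 : ℕ) : ℝ) * 4) * (2 * Real.exp (-(lam / 2 * 2 ^ n))) := by ring
    _ ≤ _ := mul_le_mul_of_nonneg_right h6 (by positivity)

theorem ae_badQ {α δ η : ℝ} (hδ0 : 0 < δ) (hη : 0 < η) (hδ1 : δ + η < 1 / 2) (hα : 0 ≤ α)
    (hpos : α * Real.log 2 + Real.binEntropy (δ + η) < Real.log 2) :
    ∃ (k : ℕ) (F : Finset (List Bool)), ∀ᵐ A ∂randomOracle,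
      ∀ C : List Bool → List Unit × List Gate, PolyTime (fun x => bits (C x)) → ∀ c : ℕ,
      ∀ᶠ n : ℕ in atTop, A ∉ BadQ C k F c ⌊α * 2 ^ n⌋₊ ⌊δ * 2 ^ n⌋₊ n := by
  obtain ⟨k, F, hF⟩ := badQ_le hδ0 hη hδ1 hα hpos
  refine ⟨k, F.image List.ofFn, ?_⟩
  have hcount : Countable {C : List Bool → List Unit × List Gate //
      PolyTime (fun x => bits (C x))} := countable_circ.to_subtype
  have key : ∀ᵐ A ∂randomOracle, ∀ (C : {C : List Bool → List Unit × List Gate //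
      PolyTime (fun x => bits (C x))}) (c : ℕ), ∀ᶠ n : ℕ in atTop,
      A ∉ BadQ C.1 k (F.image List.ofFn) c ⌊α * 2 ^ n⌋₊ ⌊δ * 2 ^ n⌋₊ n := by
    rw [ae_all_iff]
    rintro ⟨C, hC⟩
    rw [ae_all_iff]
    intro c
    obtain ⟨m₀, hm₀⟩ := eventually_atTop.1 (hF C hC c)
    have h1 : ∑' m : ℕ, randomOracle (BadQ C k (F.image List.ofFn) c ⌊α * 2 ^ (m + m₀)⌋₊
        ⌊δ * 2 ^ (m + m₀)⌋₊ (m + m₀)) ≠ ⊤ := by
      refine ne_top_of_le_ne_top ?_ (ENNReal.tsum_le_tsum fun m => hm₀ (m + m₀) (by omega))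
      have h2 : Summable (fun m : ℕ => ((1 : ℝ) / 2) ^ (m + m₀)) := by
        refine (summable_nat_add_iff m₀).2 ?_
        exact summable_geometric_of_lt_one (by norm_num) (by norm_num)
      exact h2.tsum_ofReal_ne_top
    have h3 := measure_setOfPred_frequently_eq_zero
      (p := fun (m : ℕ) (A : Oracle) => A ∈ BadQ C k (F.image List.ofFn) c
        ⌊α * 2 ^ (m + m₀)⌋₊ ⌊δ * 2 ^ (m + m₀)⌋₊ (m + m₀)) (μ := randomOracle) h1
    have h4 : ∀ᵐ A ∂randomOracle, ¬ ∃ᶠ m in atTop,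
        A ∈ BadQ C k (F.image List.ofFn) c ⌊α * 2 ^ (m + m₀)⌋₊ ⌊δ * 2 ^ (m + m₀)⌋₊
          (m + m₀) := by
      rw [ae_iff]
      simp only [not_not]
      exact h3
    filter_upwards [h4] with A hA
    rw [not_frequently] at hA
    obtain ⟨m₁, hm₁⟩ := eventually_atTop.1 hA
    rw [eventually_atTop]
    refine ⟨m₁ + m₀, fun m hm => ?_⟩
    have := hm₁ (m - m₀) (by omega)
    rwa [Nat.sub_add_cancel (by omega)] at this
  filter_upwards [key] with A hA C hC c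
  exact hA ⟨C, hC⟩ c

/-- room for more errors -/
theorem exists_gap {α δ : ℝ} (hδ' : δ < 1 / 2)
    (h : α * Real.log 2 + Real.binEntropy δ < Real.log 2) :
    ∃ η : ℝ, 0 < η ∧ δ + η < 1 / 2 ∧
      α * Real.log 2 + Real.binEntropy (δ + η) < Real.log 2 := by
  have hopen : IsOpen {d : ℝ | α * Real.log 2 + Real.binEntropy d < Real.log 2} :=
    isOpen_lt (continuous_const.add Real.binEntropy_continuous) continuous_const
  obtain ⟨r, hr, hball⟩ := Metric.isOpen_iff.1 hopen δ h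
  have hm : 0 < min r (1 / 2 - δ) := lt_min hr (by linarith)
  have h1 := min_le_left r (1 / 2 - δ)
  have h2 := min_le_right r (1 / 2 - δ)
  refine ⟨min r (1 / 2 - δ) / 2, by linarith, by linarith, ?_⟩
  exact hball (by
    rw [Metric.mem_ball, Real.dist_eq, abs_lt]
    constructor <;> linarith)

/-- the lower bound -/
theorem lowQ : ∀ᵐ A ∂randomOracle, ∀ α δ : ℝ, 0 ≤ α → 0 ≤ δ → δ ≤ 1 / 2 →
    α * Real.log 2 + Real.binEntropy δ < Real.log 2 →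
    ∃ (k : ℕ) (F : Finset (List Bool)), ∀ C : List Bool → List Unit × List Gate,
      PolyTime (fun x => bits (C x)) → ∀ c : ℕ, ∀ᶠ n : ℕ in atTop,
      ∀ m s : ℕ, m ≤ 2 ^ (c * n) → (s : ℝ) ≤ α * 2 ^ n → ∀ H, Bits H s →
        δ * 2 ^ n < (wrongQ C A H m (HL A k F (fun n => n ^ 2)) n : ℝ) := by
  have h0 : ∀ᵐ A ∂randomOracle, ∀ (α δ : ℚ), 0 ≤ (α : ℝ) → 0 < (δ : ℝ) →
      (δ : ℝ) < 1 / 2 → (α : ℝ) * Real.log 2 + Real.binEntropy δ < Real.log 2 →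
      ∃ (k : ℕ) (F : Finset (List Bool)), ∀ C : List Bool → List Unit × List Gate,
        PolyTime (fun x => bits (C x)) → ∀ c : ℕ, ∀ᶠ n : ℕ in atTop,
        A ∉ BadQ C k F c ⌊(α : ℝ) * 2 ^ n⌋₊ ⌊(δ : ℝ) * 2 ^ n⌋₊ n := by
    rw [ae_all_iff]
    intro α
    rw [ae_all_iff]
    intro δ
    by_cases h : 0 ≤ (α : ℝ) ∧ 0 < (δ : ℝ) ∧ (δ : ℝ) < 1 / 2 ∧
      (α : ℝ) * Real.log 2 + Real.binEntropy δ < Real.log 2
    · obtain ⟨h1, h2, h3, h4⟩ := h
      obtain ⟨η, h5, h6, h7⟩ := exists_gap h3 h4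
      obtain ⟨k, F, hF⟩ := ae_badQ h2 h5 h6 h1 h7
      filter_upwards [hF] with A hA _ _ _ _
      exact ⟨k, F, hA⟩
    · exact Eventually.of_forall fun A h1 h2 h3 h4 => absurd ⟨h1, h2, h3, h4⟩ h
  filter_upwards [h0] with A hA α δ hα hδ hδ' h
  obtain ⟨α', δ', h1, h2, h3, h4, h5, h6⟩ := Ex.exists_rat hα hδ hδ' h
  obtain ⟨k, F, hF⟩ := hA α' δ' h3 h4 h5 h6
  refine ⟨k, F, fun C hC c => ?_⟩
  filter_upwards [hF C hC c] with n hn m s hm hs H hH
  by_contra hcon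
  rw [not_lt] at hcon
  apply hn
  have hp : (0 : ℝ) < 2 ^ n := by positivity
  refine ⟨m, hm, H, fun y hy => (hH y hy).trans_le ?_, ?_⟩
  · apply Nat.le_floor
    nlinarith
  · apply Nat.le_floor
    nlinarith

end Pool.Agent.TH681.Qa
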