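import Pool.Agent.TH681.Ex.Em

/-! Uniform blocks as a mixture of special and other blocks. -/

set_option autoImplicit false

namespace Pool.Agent.TH681.Qa

open Finset H568R2 Pool.Agent.H591R3.PHG Pool.Agent.TH681.Ex Pool.Agent.TH681.Imm

section

variable {I T : Type} [Fintype I] [DecidableEq I] [Fintype T] [DecidableEq T]

theorem mix (Sp : Finset (T → Bool)) (h1 : 0 < Sp.card) (h2 : Sp.card < 2 ^ Fintype.card T)
    {p : ℝ} (hp : p = Sp.card / 2 ^ Fintype.card T) (G : (I → T → Bool) → ℝ) (B : ℝ)
    (hG : ∀ (u : I → {b // b ∈ Sp}) (u' : I → {b // b ∉ Sp}),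
      Ex (ber p) (fun S : I → Bool => G (fun i => if S i then (u i).1 else (u' i).1)) ≤ B) :
    Ex (ber (1 / 2)) (fun z : I × T → Bool => G (fun i t => z (i, t))) ≤ B := by
  classical
  have hT : (0 : ℝ) < 2 ^ Fintype.card T := by positivity
  have hU : Fintype.card {b // b ∈ Sp} = Sp.card := Fintype.card_coe Sp
  have hU' : Fintype.card {b // b ∉ Sp} = 2 ^ Fintype.card T - Sp.card := by
    have h3 := Fintype.card_subtype_compl (fun b => b ∈ Sp)
    rw [Fintype.card_fun, Fintype.card_bool, hU] at h3
    exact h3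
  set a : ℝ := (Sp.card : ℝ) with ha
  set a' : ℝ := 2 ^ Fintype.card T - a with ha'
  have ha0 : 0 < a := by rw [ha]; exact_mod_cast h1
  have ha'0 : 0 < a' := by
    rw [ha', ha]
    have : ((Sp.card : ℕ) : ℝ) < 2 ^ Fintype.card T := by exact_mod_cast h2
    linarith
  have hcU : (Fintype.card {b // b ∈ Sp} : ℝ) = a := by rw [hU]
  have hcU' : (Fintype.card {b // b ∉ Sp} : ℝ) = a' := by
    rw [hU', Nat.cast_sub h2.le]
    push_cast
    rfl
  -- the weights
  set w : {b // b ∈ Sp} × {b // b ∉ Sp} → ℝ := fun _ => (1 / a) * (1 / a') with hw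
  have hw1 : ∑ c, w c = 1 := by
    rw [hw, Finset.sum_const, Finset.card_univ, Fintype.card_prod, nsmul_eq_mul]
    push_cast
    rw [hcU, hcU']
    field_simp
  have hpush := Ex_push (I := I)
    (fun c : ({b // b ∈ Sp} × {b // b ∉ Sp}) × Bool => if c.2 then c.1.1.1 else c.1.2.1)
    (fun c => w c.1 * ber p c.2) (fun _ : T → Bool => (1 / 2 : ℝ) ^ Fintype.card T) (by
      intro b
      rw [Finset.sum_filter, Fintype.sum_prod_type]
      simp only [Fintype.sum_bool, if_true, Bool.false_eq_true, if_false]
      rw [Finset.sum_add_distrib, Fintype.sum_prod_type, Fintype.sum_prod_type_right]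
      simp only [hw, ber, if_true, Bool.false_eq_true, if_false]
      have hp1 : 1 - p = a' / 2 ^ Fintype.card T := by
        rw [hp, ha']
        field_simp
      by_cases hb : b ∈ Sp
      · have e1 : ∀ x : {b // b ∈ Sp}, (∑ _y : {b // b ∉ Sp},
            if x.1 = b then 1 / a * (1 / a') * p else 0) =
            if x = ⟨b, hb⟩ then 1 / a * p else 0 := by
          intro x
          by_cases hx : x = ⟨b, hb⟩
          · rw [if_pos hx, if_pos (by rw [hx]), Finset.sum_const, Finset.card_univ,
              nsmul_eq_mul, hcU']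
            field_simp
          · have : x.1 ≠ b := fun h => hx (Subtype.ext h)
            rw [if_neg hx, if_neg this, Finset.sum_const_zero]
        have e2 : ∀ y : {b // b ∉ Sp}, (∑ _x : {b // b ∈ Sp},
            if y.1 = b then 1 / a * (1 / a') * (1 - p) else 0) = 0 := by
          intro y
          have : y.1 ≠ b := fun h => y.2 (h ▸ hb)
          rw [if_neg this, Finset.sum_const_zero]
        rw [Finset.sum_congr rfl fun x _ => e1 x, Finset.sum_congr rfl fun y _ => e2 y,
          Finset.sum_ite_eq' univ (⟨b, hb⟩ : {b // b ∈ Sp}), if_pos (Finset.mem_univ _),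
          Finset.sum_const_zero, add_zero, hp, one_div_pow]
        field_simp
      · have e1 : ∀ x : {b // b ∈ Sp}, (∑ _y : {b // b ∉ Sp},
            if x.1 = b then 1 / a * (1 / a') * p else 0) = 0 := by
          intro x
          have : x.1 ≠ b := fun h => hb (h ▸ x.2)
          rw [if_neg this, Finset.sum_const_zero]
        have e2 : ∀ y : {b // b ∉ Sp}, (∑ _x : {b // b ∈ Sp},
            if y.1 = b then 1 / a * (1 / a') * (1 - p) else 0) =
            if y = ⟨b, hb⟩ then 1 / a' * (1 - p) else 0 := by
          intro y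
          by_cases hy : y = ⟨b, hb⟩
          · rw [if_pos hy, if_pos (by rw [hy]), Finset.sum_const, Finset.card_univ,
              nsmul_eq_mul, hcU]
            field_simp
          · have : y.1 ≠ b := fun h => hy (Subtype.ext h)
            rw [if_neg hy, if_neg this, Finset.sum_const_zero]
        rw [Finset.sum_congr rfl fun x _ => e1 x, Finset.sum_congr rfl fun y _ => e2 y,
          Finset.sum_ite_eq' univ (⟨b, hb⟩ : {b // b ∉ Sp}), if_pos (Finset.mem_univ _),
          Finset.sum_const_zero, zero_add, hp1, one_div_pow]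
        field_simp) G
  have hcur : Ex (ber (1 / 2)) (fun z : I × T → Bool => G (fun i t => z (i, t))) =
      Ex (fun _ : T → Bool => (1 / 2 : ℝ) ^ Fintype.card T) G := by
    rw [Adv.Ex_curry]
    unfold Ex
    refine Finset.sum_congr rfl fun g _ => ?_
    congr 1
    exact Finset.prod_congr rfl fun i _ => Adv.weight_half _
  rw [hcur, ← hpush, Ex_prod (I := I) w (ber p) (fun ω => G (fun i =>
    if (ω i).2 then (ω i).1.1.1 else (ω i).1.2.1))]
  refine (Ex_mono (G := fun _ => B) (fun c => ?_) fun uu => ?_).trans
    (le_of_eq (Ex_const hw1 B))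
  · simp only [hw]
    positivity
  · exact hG (fun i => (uu i).1) (fun i => (uu i).2)

end

end Pool.Agent.TH681.Qa
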