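import Pool.Agent.TH681.Qa.Core
import Pool.Agent.TH681.Qa.Mix
import Pool.Agent.W938.QM.Hybrid
import Pool.Agent.TH681.Ex.Fin
import Pool.Agent.TH681.Adv.Stage

/-! Quantum circuits as algorithms that ask for marks. -/

set_option autoImplicit false

namespace Pool.Agent.TH681.Qa

open Finset H568R2 Pool.Agent.H591R3.PHG Pool.Agent.TH681 Pool.Agent.TH681.Ex
  Pool.Agent.TH681.Imm Pool.Agent.H620R2.Gauge Pool.Agent.TH681.Adv Pool.Agent.H591R3
open Pool.Agent.W938.QM (wq wq_nonneg sum_wq_le circ_diff Cov qn numQ circ_norm accS)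

theorem numQ_le_length : ∀ l : List Gate, numQ l ≤ l.length
  | [] => le_rfl
  | g :: l => by
    have ih := numQ_le_length l
    rcases g with i | ⟨b, q, k⟩
    · simp only [numQ, List.length_cons]
      omega
    · cases b <;> simp only [numQ, List.length_cons] <;> omega

/-- The initial state has norm one. -/
theorem init_norm (d : ℕ) : ∑ s : Fin d → Bool, initSt d s ^ 2 = 1 := by
  unfold initSt
  rw [Finset.sum_eq_single (fun _ => false)]
  · simp
  · intro s _ hs
    rw [if_neg hs]
    norm_num
  · intro h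
    exact absurd (Finset.mem_univ _) h

theorem acc_sub_le {m : ℕ} (A A' : Oracle) (l : List Gate) (ψ : (Fin m → Bool) → ℝ)
    (hψ : ∑ s, ψ s ^ 2 = 1) : accS A l ψ - accS A' l ψ ≤
      12 * ∑ s, (circAct A l ψ s - circAct A' l ψ s) ^ 2 + 1 / 12 := by
  have hn1 := circ_norm A l ψ
  have hn2 := circ_norm A' l ψ
  rw [hψ] at hn1 hn2
  have h4 : accS A l ψ - accS A' l ψ ≤
      ∑ s, (12 * (circAct A l ψ s - circAct A' l ψ s) ^ 2 +
        (circAct A l ψ s ^ 2 + circAct A' l ψ s ^ 2) / 24) := by
    unfold accS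
    rw [← Finset.sum_sub_distrib]
    refine Finset.sum_le_sum fun s _ => ?_
    set u := circAct A l ψ s
    set v := circAct A' l ψ s
    have h5 : u ^ 2 - v ^ 2 ≤ 12 * (u - v) ^ 2 + (u ^ 2 + v ^ 2) / 24 := by
      nlinarith [sq_nonneg (24 * (u - v) - (u + v)), sq_nonneg (u - v)]
    have h6 : 0 ≤ 12 * (u - v) ^ 2 + (u ^ 2 + v ^ 2) / 24 := by positivity
    split_ifs
    · exact h5
    · linarith
  rw [Finset.sum_add_distrib, ← Finset.mul_sum, ← Finset.sum_div, Finset.sum_add_distrib, hn1,
    hn2] at h4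
  linarith

/-- If the probabilities differ by at least `1 / 6` then the weight of the differences is large. -/
theorem acc_far {m : ℕ} (A A' : Oracle) (T : Finset (List Bool)) (l : List Gate)
    (hT : Cov m A A' T l) (ψ : (Fin m → Bool) → ℝ) (hψ : ∑ s, ψ s ^ 2 = 1)
    (h : 1 / 6 ≤ |accS A l ψ - accS A' l ψ|) (R : ℝ) (hR0 : 0 < R) (hR : (numQ l : ℝ) ≤ R) :
    1 / (576 * R) ≤ ∑ z ∈ T, wq A l ψ z := by
  have h3 := circ_diff A A' T l hT ψ
  have h1 := acc_sub_le A A' l ψ hψ
  have h2 := acc_sub_le A' A l ψ hψ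
  have h2' : ∑ s, (circAct A' l ψ s - circAct A l ψ s) ^ 2 =
      ∑ s, (circAct A l ψ s - circAct A' l ψ s) ^ 2 :=
    Finset.sum_congr rfl fun s _ => by ring
  rw [h2'] at h2
  set W := ∑ z ∈ T, wq A l ψ z with hW
  have hW0 : 0 ≤ W := Finset.sum_nonneg fun z _ => wq_nonneg A l ψ z
  have h7 : (numQ l : ℝ) * (4 * W) ≤ R * (4 * W) := mul_le_mul_of_nonneg_right hR (by positivity)
  have h8 : |accS A l ψ - accS A' l ψ| ≤ 12 * (R * (4 * W)) + 1 / 12 := by
    rw [abs_le]
    constructor <;> linarith
  rw [div_le_iff₀ (by positivity)]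
  nlinarith

section

variable {X W T : Type} [Fintype X] [DecidableEq X] [Fintype W] [DecidableEq W]
  [Fintype T] [DecidableEq T]

/-- the oracle for the marks `S` -/
noncomputable def orS {N : ℕ} (e : (X × W) × T → Fin N) (a : Fin N → Bool)
    (u u' : X × W → T → Bool) (H : Oracle) (S : X × W → Bool) : Oracle :=
  two (orc N (Proj.owr e a (fun j => (if S j.1 then u j.1 else u' j.1) j.2))) H

/-- the name of a bit -/
def nmz {N : ℕ} (e : (X × W) × T → Fin N) (j : (X × W) × T) : List Bool := false :: str (e j).1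

omit [Fintype X] [DecidableEq X] [Fintype W] [DecidableEq W] [Fintype T] [DecidableEq T] in
theorem nmz_inj {N : ℕ} {e : (X × W) × T → Fin N} (he : Function.Injective e) :
    Function.Injective (nmz e) := by
  intro j j' h
  have h1 := List.tail_eq_of_cons_eq h
  exact he (Fin.ext (str_injective h1))

theorem orS_ne {N : ℕ} {e : (X × W) × T → Fin N} (he : Function.Injective e) (a : Fin N → Bool)
    (u u' : X × W → T → Bool) (H : Oracle) (C S : X × W → Bool) (z : List Bool)
    (h : orS e a u u' H C z ≠ orS e a u u' H S z) : ∃ j, nmz e j = z ∧ C j.1 ≠ S j.1 := by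
  rcases z with _ | ⟨b, y⟩
  · exact absurd rfl h
  cases b with
  | true => exact absurd rfl h
  | false =>
    change orc N _ y ≠ orc N _ y at h
    unfold orc at h
    by_cases hy : idx y < N
    · rw [dif_pos hy, dif_pos hy] at h
      by_cases hj : ∃ j, e j = ⟨idx y, hy⟩
      · obtain ⟨j, hj⟩ := hj
        refine ⟨j, ?_, fun hCS => h ?_⟩
        · unfold nmz
          rw [hj]
          show false :: str (idx y) = _
          rw [str_idx]
        · rw [← hj, Proj.owr_e he, Proj.owr_e he, hCS]
      · rw [Proj.owr_off _ _ hj, Proj.owr_off _ _ hj] at h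
        exact absurd rfl h
    · rw [dif_neg hy, dif_neg hy] at h
      exact absurd rfl h

/-- quantum circuits -/
noncomputable def qsys {N : ℕ} {e : (X × W) × T → Fin N} (he : Function.Injective e)
    (a : Fin N → Bool) (u u' : X × W → T → Bool) (H : Oracle)
    (Cx : X → List Unit × List Gate) (R : ℝ) (hR0 : 0 < R)
    (hR : ∀ x, (numQ (Cx x).2 : ℝ) ≤ R) : Sys X W R (1 / (576 * R)) where
  o := fun x S => decide (1 / 2 ≤ accProb (orS e a u u' H S) (Cx x))
  right := fun x S => (lg S x = true → 2 / 3 ≤ accProb (orS e a u u' H S) (Cx x)) ∧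
    (lg S x = false → accProb (orS e a u u' H S) (Cx x) ≤ 1 / 3)
  q := fun x S i => ∑ t : T, wq (orS e a u u' H S) (Cx x).2 (initSt (Cx x).1.length)
    (nmz e (i, t))
  q0 := fun x S i => Finset.sum_nonneg fun t _ => wq_nonneg _ _ _ _
  qR := by
    intro x S
    classical
    rw [← Fintype.sum_prod_type (f := fun j : (X × W) × T =>
      wq (orS e a u u' H S) (Cx x).2 (initSt (Cx x).1.length) (nmz e j))]
    have h1 := sum_wq_le (orS e a u u' H S) (univ.image (nmz e)) (Cx x).2
      (initSt (Cx x).1.length)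
    rw [Finset.sum_image (fun j _ j' _ h => nmz_inj he h), init_norm, mul_one] at h1
    exact h1.trans (hR x)
  hyb := by
    intro x C S hCS hr hne
    classical
    set A := orS e a u u' H C with hA
    set A' := orS e a u u' H S with hA'
    set D := univ.filter (fun i : X × W => S i = true ∧ C i = false) with hD
    set T' : Finset (List Bool) := (D ×ˢ (univ : Finset T)).image (nmz e) with hT'
    have hcov : Cov (Cx x).1.length A A' T' (Cx x).2 := by
      intro q k _ s _ h
      obtain ⟨j, hj, hj2⟩ := orS_ne he a u u' H C S _ h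
      rw [hT', Finset.mem_image]
      refine ⟨j, ?_, hj⟩
      rw [Finset.mem_product, hD, Finset.mem_filter]
      refine ⟨⟨Finset.mem_univ _, ?_⟩, Finset.mem_univ _⟩
      cases hc : C j.1 with
      | false =>
        rw [hc] at hj2
        exact ⟨by simpa using hj2.symm, rfl⟩
      | true => exact absurd (by rw [hc, hCS _ hc]) hj2
    have hfar : 1 / 6 ≤ |accS A (Cx x).2 (initSt (Cx x).1.length) -
        accS A' (Cx x).2 (initSt (Cx x).1.length)| := by
      change 1 / 6 ≤ |accProb A (Cx x) - accProb A' (Cx x)|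
      cases hl : lg S x with
      | true =>
        have h1 := hr.1 hl
        rw [hl, ne_eq, decide_eq_true_iff, not_le] at hne
        rw [abs_sub_comm]
        refine le_trans ?_ (le_abs_self _)
        linarith
      | false =>
        have h1 := hr.2 hl
        rw [hl, ne_eq, decide_eq_false_iff_not, not_not] at hne
        refine le_trans ?_ (le_abs_self _)
        linarith
    have h := acc_far A A' T' (Cx x).2 hcov _ (init_norm _) hfar R hR0 (hR x)
    refine h.trans (le_of_eq ?_)
    rw [hT', Finset.sum_image (fun j _ j' _ h => nmz_inj he h), Finset.sum_product]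

end

end Pool.Agent.TH681.Qa
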