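import Pool.Agent.TH681.Qa.Qsys
import Pool.Agent.TH681.Qa.Defs
import Pool.Agent.TH681.Ex.Meas
import Pool.Agent.H620R2.GaugeQ.Q8

/-! The measure of the oracles for which one quantum algorithm makes few errors. -/

set_option autoImplicit false

namespace Pool.Agent.TH681.Qa

open Finset H568R2 Pool.Agent.NPC Pool.Agent.H591R3.PHG Pool.Agent.TH681 Pool.Agent.TH681.Ex
  Pool.Agent.TH681.Imm Pool.Agent.H620R2.Gauge Pool.Agent.TH681.Adv Pool.Agent.H591R3
  MeasureTheory
open Pool.Agent.H628R3.RO (randomOracle coin)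
open Pool.Agent.TH681.Pa (Bits)
open Pool.Agent.W938.QM (numQ)

/-- the bound for one advice -/
noncomputable def bq (n e d : ℕ) (p h θ ρ R : ℝ) : ℝ :=
  2 * ((θ ^ (e + d))⁻¹ * ρ ^ 2 ^ n +
    Real.exp (-(d * (1 / (576 * R)) / h) + 2 * p * (2 ^ n * R) / h))

theorem one_H {n v k : ℕ} {C : List Bool → List Unit × List Gate} {b : Polynomial ℕ}
    (hb : ∀ x, (C x).2.length ≤ b.eval x.length ∧
      ∀ q k, Sum.inr (true, q, k) ∈ (C x).2 → q.length ≤ b.eval x.length)
    (H : Oracle) (m : ℕ) {R : ℝ} (hR0 : 0 < R) (hR : ((b.eval (2 * m + 1 + n) : ℕ) : ℝ) ≤ R)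
    {F : Finset (Fin k → Bool)} (hF0 : 0 < F.card) (hF1 : F.card < 2 ^ (v + k))
    {p h θ ε ρ : ℝ} (hp : p = F.card / 2 ^ (v + k)) (hp0 : 0 ≤ p) (hp1 : p ≤ 1) (hh : 0 < h)
    (hθ0 : 0 < θ) (hθ1 : θ ≤ 1) (hε : 0 ≤ ε)
    (z0 : (1 - p) ^ 2 ^ v ≤ 1 / 2 + ε) (z1 : 1 - (1 - p) ^ 2 ^ v ≤ 1 / 2 + ε)
    (hρ : ρ = θ + (1 - θ) * (1 / 2 + ε)) (hρ1 : ρ ≤ 1) (e d : ℕ)
    (hsmall : 2 ^ n * R / h * p / ρ ≤ 1 / 2) {g : ℕ → ℕ} (hg : g n = v) :
    randomOracle {A : Oracle | wrongQ C A H m (HL A k (F.image List.ofFn) g) n ≤ e} ≤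
      ENNReal.ofReal (bq n e d p h θ ρ R) := by
  classical
  set ℓ : ℕ := 2 * m + 1 + n with hℓ
  set N : ℕ := 2 ^ (b.eval ℓ + (n + 2 * v + k) + 1) with hNdef
  have hN : 2 ^ (n + 2 * v + k + 1) ≤ N := Nat.pow_le_pow_right (by norm_num) (by omega)
  set Cx : (Fin n → Bool) → List Unit × List Gate := fun x =>
    C (pairBits (List.replicate m true) (List.ofFn x)) with hCx
  have hlen : ∀ x : Fin n → Bool, (pairBits (List.replicate m true) (List.ofFn x)).length = ℓ := by
    intro x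
    rw [length_pairBits, List.length_replicate, List.length_ofFn]
  have hloc : ∀ (A : Oracle) (x : Fin n → Bool),
      accProb (two (orc N (pre N A)) H) (Cx x) = accProb (two A H) (Cx x) := by
    intro A x
    apply accProb_local (N := N)
    intro q k' hq y hy
    apply two_congr
    rintro z rfl
    apply orc_pre
    have h1 := (hb (pairBits (List.replicate m true) (List.ofFn x))).2 q k' hq
    rw [hlen] at h1
    rw [List.length_cons] at hy
    have h2 := idx_lt z
    have h3 : 2 ^ (z.length + 1) ≤ N := Nat.pow_le_pow_right (by norm_num) (by omega)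
    omega
  have hRx : ∀ x, (numQ (Cx x).2 : ℝ) ≤ R := by
    intro x
    refine le_trans ?_ hR
    have h1 := (hb (pairBits (List.replicate m true) (List.ofFn x))).1
    rw [hlen] at h1
    exact_mod_cast (numQ_le_length _).trans h1
  set f := ps n v k N hN with hf
  have hfi : Function.Injective f := ps_inj N hN
  -- the event
  set rt : (Fin N → Bool) → (Fin n → Bool) → Prop := fun a x =>
    ((∃ w, (fun i => a (f ((x, w), i))) ∈ spec v k F) →
      2 / 3 ≤ accProb (two (orc N a) H) (Cx x)) ∧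
    ((¬ ∃ w, (fun i => a (f ((x, w), i))) ∈ spec v k F) →
      accProb (two (orc N a) H) (Cx x) ≤ 1 / 3) with hrt
  set E : (Fin N → Bool) → Prop := fun a => (univ.filter (fun x => ¬ rt a x)).card ≤ e with hE
  have hsub : {A : Oracle | wrongQ C A H m (HL A k (F.image List.ofFn) g) n ≤ e} ⊆
      {A : Oracle | E (pre N A)} := by
    intro A hA
    refine le_trans ?_ (show wrongQ C A H m (HL A k (F.image List.ofFn) g) n ≤ e from hA)
    unfold wrongQ
    have hfin : {x : List Bool | x.length = n ∧ ¬ ((x ∈ HL A k (F.image List.ofFn) g →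
        2 / 3 ≤ accProb (two A H) (C (pairBits (List.replicate m true) x))) ∧
      (x ∉ HL A k (F.image List.ofFn) g →
        accProb (two A H) (C (pairBits (List.replicate m true) x)) ≤ 1 / 3))}.Finite :=
      (List.finite_length_eq Bool n).subset fun x hx => hx.1
    rw [← Set.ncard_coe_finset]
    refine Set.ncard_le_ncard_of_injOn (fun x : Fin n → Bool => List.ofFn x) ?_ ?_ hfin
    · intro x hx
      rw [Finset.mem_coe, Finset.mem_filter] at hx
      refine ⟨List.length_ofFn, fun hcon => hx.2 ?_⟩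
      simp only [hrt]
      rw [hloc, ← mem_HL_iff hN A F hg x]
      exact hcon
    · intro x _ x' _ h
      exact List.ofFn_injective h
  refine (measure_mono hsub).trans ((meas_event E).trans (ENNReal.ofReal_le_ofReal ?_))
  rw [Ex_owr f hfi]
  refine (Ex_mono (G := fun _ => bq n e d p h θ ρ R) unif_nonneg' fun a => ?_).trans
    (le_of_eq (Ex_const unif_sum' _))
  -- the mixture
  have hcard : (spec v k F).card = F.card := card_spec v k F
  have hT : Fintype.card (Fin (v + k)) = v + k := Fintype.card_fin _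
  have hmix := mix (I := (Fin n → Bool) × (Fin v → Bool)) (T := Fin (v + k)) (spec v k F)
    (by rw [hcard]; exact hF0) (by rw [hcard, hT]; exact hF1) (p := p)
    (by rw [hcard, hT]; exact hp)
    (fun z => if E (Proj.owr f a (fun j => z j.1 j.2)) then (1 : ℝ) else 0)
    (bq n e d p h θ ρ R) ?_
  · convert hmix
  intro u u'
  have hX : Fintype.card (Fin n → Bool) = 2 ^ n := by
    rw [Fintype.card_fun, Fintype.card_bool, Fintype.card_fin]
  have hW : Fintype.card (Fin v → Bool) = 2 ^ v := by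
    rw [Fintype.card_fun, Fintype.card_bool, Fintype.card_fin]
  have h1 := (qsys hfi a (fun i => (u i).1) (fun i => (u' i).1) H Cx R hR0 hRx).bound hp0 hp1 hh
    hR0.le (by positivity) hθ0 hθ1 hε (by rw [hW]; exact z0) (by rw [hW]; exact z1) hρ hρ1 e d
    (by rw [hX]; push_cast; exact hsmall)
  rw [hX] at h1
  push_cast at h1
  refine le_trans (le_of_eq ?_) h1
  congr 1
  funext S
  have hiff : ∀ x : Fin n → Bool, (∃ w, (fun i => Proj.owr f a (fun j : ((Fin n → Bool) ×
      (Fin v → Bool)) × Fin (v + k) => (if S j.1 = true then (u j.1).1 else (u' j.1).1) j.2)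
        (f ((x, w), i))) ∈ spec v k F) ↔ lg S x = true := by
    intro x
    unfold lg
    rw [decide_eq_true_iff]
    refine exists_congr fun w => ?_
    have h2 : (fun i => Proj.owr f a (fun j : ((Fin n → Bool) ×
        (Fin v → Bool)) × Fin (v + k) => (if S j.1 = true then (u j.1).1 else (u' j.1).1) j.2)
        (f ((x, w), i))) = if S (x, w) = true then (u (x, w)).1 else (u' (x, w)).1 := by
      funext i
      rw [Proj.owr_e hfi]
    rw [h2]
    cases hS : S (x, w) with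
    | true => simp [(u (x, w)).2]
    | false => simp [(u' (x, w)).2]
  have hr : ∀ x, rt (Proj.owr f a (fun j => (if S j.1 = true then (u j.1).1
      else (u' j.1).1) j.2)) x ↔
      (qsys hfi a (fun i => (u i).1) (fun i => (u' i).1) H Cx R hR0 hRx).right x S := by
    intro x
    simp only [hrt]
    rw [hiff x, Bool.not_eq_true]
    rfl
  simp only [hE, hr]

theorem all_H {n v k : ℕ} {C : List Bool → List Unit × List Gate} {b : Polynomial ℕ}
    (hb : ∀ x, (C x).2.length ≤ b.eval x.length ∧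
      ∀ q k, Sum.inr (true, q, k) ∈ (C x).2 → q.length ≤ b.eval x.length)
    (m : ℕ) {R : ℝ} (hR0 : 0 < R) (hR : ((b.eval (2 * m + 1 + n) : ℕ) : ℝ) ≤ R)
    {F : Finset (Fin k → Bool)} (hF0 : 0 < F.card) (hF1 : F.card < 2 ^ (v + k))
    {p h θ ε ρ : ℝ} (hp : p = F.card / 2 ^ (v + k)) (hp0 : 0 ≤ p) (hp1 : p ≤ 1) (hh : 0 < h)
    (hθ0 : 0 < θ) (hθ1 : θ ≤ 1) (hε : 0 ≤ ε)
    (z0 : (1 - p) ^ 2 ^ v ≤ 1 / 2 + ε) (z1 : 1 - (1 - p) ^ 2 ^ v ≤ 1 / 2 + ε)
    (hρ : ρ = θ + (1 - θ) * (1 / 2 + ε)) (hρ1 : ρ ≤ 1) (e d S : ℕ)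
    (hsmall : 2 ^ n * R / h * p / ρ ≤ 1 / 2) {g : ℕ → ℕ} (hg : g n = v) :
    randomOracle {A : Oracle | ∃ H, Bits H S ∧
      wrongQ C A H m (HL A k (F.image List.ofFn) g) n ≤ e} ≤
      ENNReal.ofReal (2 ^ S * bq n e d p h θ ρ R) := by
  have hsub : {A : Oracle | ∃ H, Bits H S ∧
      wrongQ C A H m (HL A k (F.image List.ofFn) g) n ≤ e} ⊆
      ⋃ c : Fin S → Bool,
        {A : Oracle | wrongQ C A (orc S c) m (HL A k (F.image List.ofFn) g) n ≤ e} := by
    rintro A ⟨H, hH, hA⟩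
    rw [Set.mem_iUnion]
    refine ⟨pre S H, ?_⟩
    rw [orc_pre_eq hH]
    exact hA
  refine (measure_mono hsub).trans ((measure_iUnion_le _).trans ?_)
  rw [tsum_fintype]
  refine (Finset.sum_le_sum fun c _ => one_H hb (orc S c) m hR0 hR hF0 hF1 hp hp0 hp1 hh hθ0 hθ1 hε
    z0 z1 hρ hρ1 e d hsmall hg).trans (le_of_eq ?_)
  rw [Finset.sum_const, Finset.card_univ, Fintype.card_fun, Fintype.card_bool, Fintype.card_fin,
    nsmul_eq_mul, ENNReal.ofReal_mul (p := (2 : ℝ) ^ S) (by positivity),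
    ENNReal.ofReal_pow (by norm_num)]
  congr 1
  simp

end Pool.Agent.TH681.Qa
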